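import Mathlib

/-!
# Subalgebras of a field: localisation away from an element and smoothness
-/

set_option linter.style.haveILetI false

namespace Pool.Agent.V5helper91.Kol

section Away

variable {k K : Type} [Field k] [Field K] [Algebra k K]

/-- `S[1/h]` inside `K`. -/
def away (S : Subalgebra k K) (h : K) (hh : h ∈ S) : Subalgebra k K where
  carrier := {f | ∃ n : ℕ, f * h ^ n ∈ S}
  mul_mem' := by
    rintro a b ⟨m, hm⟩ ⟨n, hn⟩
    refine ⟨m + n, ?_⟩
    have h' := S.mul_mem hm hn
    rwa [show a * b * h ^ (m + n) = a * h ^ m * (b * h ^ n) by ring]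
  add_mem' := by
    rintro a b ⟨m, hm⟩ ⟨n, hn⟩
    refine ⟨m + n, ?_⟩
    have h1 := S.mul_mem hm (S.pow_mem hh n)
    have h2 := S.mul_mem hn (S.pow_mem hh m)
    rw [show (a + b) * h ^ (m + n) = a * h ^ m * h ^ n + b * h ^ n * h ^ m by ring]
    exact add_mem h1 h2
  algebraMap_mem' := by
    intro c
    refine ⟨0, ?_⟩
    rw [pow_zero, mul_one]
    exact S.algebraMap_mem c

theorem mem_away {S : Subalgebra k K} {h : K} {hh : h ∈ S} {f : K} :
    f ∈ away S h hh ↔ ∃ n : ℕ, f * h ^ n ∈ S := Iff.rfl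

theorem le_away (S : Subalgebra k K) (h : K) (hh : h ∈ S) : S ≤ away S h hh :=
  fun f hf => ⟨0, by simpa using hf⟩

theorem inv_mem_away (S : Subalgebra k K) (h : K) (hh : h ∈ S) : h⁻¹ ∈ away S h hh := by
  by_cases h0 : h = 0
  · subst h0; simp
  · exact ⟨1, by rw [pow_one, inv_mul_cancel₀ h0]; exact S.one_mem⟩

theorem isLocalization_away (S : Subalgebra k K) (h : K) (hh : h ∈ S) (h0 : h ≠ 0) :
    letI := (Subalgebra.inclusion (le_away S h hh)).toRingHom.toAlgebra
    IsLocalization.Away (⟨h, hh⟩ : S) (away S h hh) := by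
  letI := (Subalgebra.inclusion (le_away S h hh)).toRingHom.toAlgebra
  have hval : ∀ s : S, ((algebraMap S (away S h hh) s : away S h hh) : K) = s := fun s => rfl
  refine ⟨?_, ?_, ?_⟩
  · rintro ⟨y, n, rfl⟩
    refine IsUnit.of_mul_eq_one (⟨h⁻¹, inv_mem_away S h hh⟩ ^ n) ?_
    apply Subtype.ext
    show ((algebraMap S (away S h hh) (⟨h, hh⟩ ^ n) : away S h hh) : K) * _ = 1
    rw [hval]
    simp only [SubmonoidClass.mk_pow]
    rw [← mul_pow, mul_inv_cancel₀ h0, one_pow]
  · rintro ⟨f, n, hn⟩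
    refine ⟨(⟨f * h ^ n, hn⟩, ⟨⟨h, hh⟩ ^ n, n, rfl⟩), ?_⟩
    apply Subtype.ext
    show f * ((algebraMap S (away S h hh) (⟨h, hh⟩ ^ n) : away S h hh) : K) =
      ((algebraMap S (away S h hh) ⟨f * h ^ n, hn⟩ : away S h hh) : K)
    rw [hval, hval]
    simp
  · intro a b hab
    refine ⟨1, ?_⟩
    have : (a : K) = b := by
      have h2 := congrArg (fun z : away S h hh => (z : K)) hab
      exact h2
    simp [Subtype.ext this]

theorem smooth_away (S : Subalgebra k K) (h : K) (hh : h ∈ S) (h0 : h ≠ 0)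
    (hS : Algebra.Smooth k S) : Algebra.Smooth k (away S h hh) := by
  letI := (Subalgebra.inclusion (le_away S h hh)).toRingHom.toAlgebra
  haveI : IsScalarTower k S (away S h hh) := IsScalarTower.of_algebraMap_eq fun x => rfl
  haveI := isLocalization_away S h hh h0
  haveI : Algebra.Smooth S (away S h hh) := Algebra.Smooth.of_isLocalization_Away (⟨h, hh⟩ : S)
  exact Algebra.Smooth.comp k S (away S h hh)

theorem smooth_of_span (S : Subalgebra k K) (s : Set S) (hs : Ideal.span s = ⊤)
    (hs0 : ∀ r ∈ s, (r : K) ≠ 0) (h : ∀ r ∈ s, Algebra.Smooth k (away S r r.2)) :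
    Algebra.Smooth k S := by
  rw [← RingHom.smooth_algebraMap]
  refine RingHom.Smooth.ofLocalizationSpanTarget _ s hs ?_
  rintro ⟨r, hr⟩
  have e : (algebraMap S (Localization.Away r)).comp (algebraMap k S) =
    algebraMap k (Localization.Away r) := (IsScalarTower.algebraMap_eq k S _).symm
  show RingHom.Smooth ((algebraMap S (Localization.Away r)).comp (algebraMap k S))
  rw [e, RingHom.smooth_algebraMap]
  letI := (Subalgebra.inclusion (le_away S r r.2)).toRingHom.toAlgebra
  haveI : IsScalarTower k S (away S r r.2) := IsScalarTower.of_algebraMap_eq fun x => rfl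
  haveI := isLocalization_away S r r.2 (hs0 r hr)
  haveI := h r hr
  let E : (away S r r.2) ≃ₐ[S] Localization.Away r :=
    IsLocalization.algEquiv (Submonoid.powers r) _ _
  exact Algebra.Smooth.of_equiv (E.restrictScalars k)

theorem smooth_adjoin_pair (a q : K) (h : AlgebraicIndependent k ![a, q]) :
    Algebra.Smooth k (Algebra.adjoin k {a, q}) := by
  have e : Set.range ![a, q] = {a, q} := by
    simp [Matrix.range_cons, Matrix.range_empty, Set.pair_comm]
  rw [← e]
  haveI : Algebra.Smooth k (MvPolynomial (Fin 2) k) := ⟨inferInstance, inferInstance⟩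
  exact Algebra.Smooth.of_equiv h.aevalEquiv

/-- two localisations agree -/
theorem away_eq (S T : Subalgebra k K) (h g : K) (hh : h ∈ S) (hg : g ∈ T)
    (hST : S ≤ away T g hg) (hTS : T ≤ away S h hh) (hgu : g⁻¹ ∈ away S h hh)
    (hhu : h⁻¹ ∈ away T g hg) (h0 : h ≠ 0) (g0 : g ≠ 0) : away S h hh = away T g hg := by
  apply le_antisymm
  · rintro f ⟨n, hn⟩
    have h1 := (away T g hg).mul_mem (hST hn) ((away T g hg).pow_mem hhu n)
    rwa [mul_assoc, ← mul_pow, mul_inv_cancel₀ h0, one_pow, mul_one] at h1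
  · rintro f ⟨n, hn⟩
    have h1 := (away S h hh).mul_mem (hTS hn) ((away S h hh).pow_mem hgu n)
    rwa [mul_assoc, ← mul_pow, mul_inv_cancel₀ g0, one_pow, mul_one] at h1

end Away

end Pool.Agent.V5helper91.Kol
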