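import Pool.Agent.V5helper94.Kol.SurfDefs
import Pool.Agent.V5helper91.Kol.Away

/-!
# Basic facts about `ℂ(x, y)`
-/

set_option linter.style.haveILetI false
set_option linter.unusedSectionVars false

namespace Pool.Agent.V5helper91.Kol

open Polynomial Pool.Agent.V5helper94.Kol Cardinal

variable {K : Type} [Field K] [Algebra ℂ K] [Algebra P2 K] [IsScalarTower ℂ P2 K]
  [IsFractionRing P2 K]

theorem amap_ne {F : P2} (hF : F ≠ 0) : algebraMap P2 K F ≠ 0 := by
  intro h
  exact hF ((IsFractionRing.injective P2 K) (by rw [h, map_zero]))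

theorem x_ne : x2 K ≠ 0 := amap_ne (by simp)

theorem y_ne : y2 K ≠ 0 := amap_ne (by simp)

theorem amap_C_C (c : ℂ) : algebraMap P2 K (C (C c)) = algebraMap ℂ K c := by
  rw [IsScalarTower.algebraMap_apply ℂ P2 K]
  rfl

theorem lin_eq (a : ℂ) : lin2 K a = algebraMap P2 K (X + C (C a * X)) := by
  rw [lin2, map_add, map_mul, map_mul, amap_C_C, y2, x2]

theorem linP_ne (a : ℂ) : (X + C (C a * X) : P2) ≠ 0 := by
  exact (monic_X_add_C _).ne_zero

theorem lin_ne (a : ℂ) : lin2 K a ≠ 0 := by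
  rw [lin_eq]
  exact amap_ne (linP_ne a)

theorem lin_sub (a b : ℂ) : lin2 K a - lin2 K b = algebraMap ℂ K (a - b) * x2 K := by
  rw [lin2, lin2, map_sub]; ring

/-- the image of `ℂ[x, y]` lies in every subalgebra containing `x` and `y` -/
theorem amap_mem (S : Subalgebra ℂ K) (hx : x2 K ∈ S) (hy : y2 K ∈ S) (F : P2) :
    algebraMap P2 K F ∈ S := by
  induction F using Polynomial.induction_on' with
  | add F G hF hG => rw [map_add]; exact S.add_mem hF hG
  | monomial n a =>
    rw [← C_mul_X_pow_eq_monomial, map_mul, map_pow]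
    refine S.mul_mem ?_ (S.pow_mem hy n)
    induction a using Polynomial.induction_on' with
    | add F G hF hG => rw [map_add, map_add]; exact S.add_mem hF hG
    | monomial n a =>
      rw [← C_mul_X_pow_eq_monomial, map_mul, map_pow, map_mul, map_pow]
      exact S.mul_mem (by rw [amap_C_C]; exact S.algebraMap_mem a) (S.pow_mem hx n)

theorem exists_quot (f : K) : ∃ F G : P2, G ≠ 0 ∧ f * algebraMap P2 K G = algebraMap P2 K F := by
  obtain ⟨F, G, hG, rfl⟩ := IsFractionRing.div_surjective (A := P2) f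
  have hG0 : G ≠ 0 := nonZeroDivisors.ne_zero hG
  have := amap_ne (K := K) hG0
  exact ⟨F, G, hG0, by field_simp⟩

theorem isAlgebraic_sub (S : Subalgebra ℂ K) (hx : x2 K ∈ S) (hy : y2 K ∈ S) :
    Algebra.IsAlgebraic S K := by
  constructor
  intro f
  obtain ⟨F, G, hG, e⟩ := exists_quot f
  refine ⟨C ⟨algebraMap P2 K G, amap_mem S hx hy G⟩ * X - C ⟨algebraMap P2 K F, amap_mem S hx hy F⟩,
    ?_, ?_⟩
  · intro h0
    have h1 := congrArg (fun p => Polynomial.coeff p 1) h0
    simp only [coeff_sub, coeff_C_mul, coeff_X_one, mul_one, coeff_C_succ, sub_zero,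
      coeff_zero] at h1
    exact amap_ne (K := K) hG (congrArg Subtype.val h1)
  · simp only [map_sub, map_mul, aeval_C, aeval_X]
    show algebraMap P2 K G * f - algebraMap P2 K F = 0
    rw [← e]; ring

theorem trdeg_K : Algebra.trdeg ℂ K = 2 := by
  have h1 := trdeg_add_eq ℂ (Polynomial ℂ) (A := P2)
  rw [Polynomial.trdeg_of_isDomain, Polynomial.trdeg_of_isDomain] at h1
  haveI : FaithfulSMul P2 K :=
    (faithfulSMul_iff_algebraMap_injective P2 K).mpr (IsFractionRing.injective P2 K)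
  haveI : Algebra.IsAlgebraic P2 K := IsLocalization.isAlgebraic K (nonZeroDivisors P2)
  have h2 := trdeg_add_eq ℂ P2 (A := K)
  rw [trdeg_eq_zero (R := P2) (A := K), ← h1, add_zero] at h2
  rw [← h2]
  norm_num

theorem trdeg_sub (S : Subalgebra ℂ K) (hx : x2 K ∈ S) (hy : y2 K ∈ S) :
    Algebra.trdeg ℂ S = 2 := by
  haveI := isAlgebraic_sub S hx hy
  haveI : FaithfulSMul ℂ S :=
    (faithfulSMul_iff_algebraMap_injective ℂ S).mpr (algebraMap ℂ S).injective
  haveI : FaithfulSMul S K :=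
    (faithfulSMul_iff_algebraMap_injective S K).mpr Subtype.val_injective
  have h2 := trdeg_add_eq ℂ S (A := K)
  rw [trdeg_eq_zero (R := S) (A := K), add_zero, trdeg_K] at h2
  exact h2

theorem algInd (a q : K) (hx : x2 K ∈ Algebra.adjoin ℂ {a, q})
    (hy : y2 K ∈ Algebra.adjoin ℂ {a, q}) : AlgebraicIndependent ℂ ![a, q] := by
  have e : Set.range ![a, q] = {a, q} := by
    simp [Matrix.range_cons, Matrix.range_empty, Set.pair_comm]
  haveI : Algebra.IsAlgebraic (Algebra.adjoin ℂ (Set.range ![a, q])) K := by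
    rw [e]
    exact isAlgebraic_sub _ hx hy
  exact (Algebra.IsAlgebraic.isTranscendenceBasis_of_le_trdeg_of_finite ℂ ![a, q]
    (by rw [trdeg_K]; simp)).1

theorem smooth_pair (a q : K) (hx : x2 K ∈ Algebra.adjoin ℂ {a, q})
    (hy : y2 K ∈ Algebra.adjoin ℂ {a, q}) : Algebra.Smooth ℂ (Algebra.adjoin ℂ {a, q}) :=
  smooth_adjoin_pair a q (algInd a q hx hy)

end Pool.Agent.V5helper91.Kol
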