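import Pool.Agent.V5helper91.Kol.Gens

/-!
# The charts of the blow-up of `J`
-/

set_option linter.style.haveILetI false
set_option linter.unusedSectionVars false

namespace Pool.Agent.V5helper91.Kol

open Polynomial Pool.Agent.V5helper94.Kol

variable {K : Type} [Field K] [Algebra ℂ K] [Algebra P2 K] [IsScalarTower ℂ P2 K]
  [IsFractionRing P2 K]

variable {ι : Type} (p : ι → ℂ)

/-- The chart at the exceptional curve `E₀` -/
noncomputable def C0 (K : Type) [Field K] [Algebra ℂ K] [Algebra P2 K] : Subalgebra ℂ K :=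
  Algebra.adjoin ℂ ({x2 K, y2 K / x2 K} ∪ Set.range fun i => x2 K ^ 2 / lin2 K (p i))

/-- The chart at infinity of `E₀` -/
noncomputable def Cinf (K : Type) [Field K] [Algebra ℂ K] [Algebra P2 K] : Subalgebra ℂ K :=
  Algebra.adjoin ℂ ({y2 K, x2 K / y2 K} ∪ Set.range fun i => x2 K ^ 2 / lin2 K (p i))

/-- The charts on the branches -/
noncomputable def Cbr (K : Type) [Field K] [Algebra ℂ K] [Algebra P2 K] (i : ι) (j : ℕ) :
    Subalgebra ℂ K :=
  Algebra.adjoin ℂ ({lin2 K (p i) / x2 K ^ (j + 2), x2 K ^ (j + 3) / lin2 K (p i)} ∪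
    Set.range fun i' : {i' // i' ≠ i} => x2 K / lin2 K (p i'))

section mem

theorem C0_x : x2 K ∈ C0 p K := Algebra.subset_adjoin (by simp)
theorem C0_u : y2 K / x2 K ∈ C0 p K := Algebra.subset_adjoin (by simp)
theorem C0_w (i : ι) : x2 K ^ 2 / lin2 K (p i) ∈ C0 p K := Algebra.subset_adjoin (by simp)
theorem C0_y : y2 K ∈ C0 p K := by
  have h := mul_mem (C0_x (K := K) p) (C0_u p)
  rwa [mul_div_cancel₀ _ x_ne] at h

theorem C0_w' (i : ι) (m : ℕ) : x2 K ^ (m + 2) / lin2 K (p i) ∈ C0 p K := by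
  have h := mul_mem (pow_mem (C0_x (K := K) p) m) (C0_w p i)
  rwa [← mul_div_assoc, ← pow_add] at h

theorem Cinf_y : y2 K ∈ Cinf p K := Algebra.subset_adjoin (by simp)
theorem Cinf_v : x2 K / y2 K ∈ Cinf p K := Algebra.subset_adjoin (by simp)
theorem Cinf_w (i : ι) : x2 K ^ 2 / lin2 K (p i) ∈ Cinf p K := Algebra.subset_adjoin (by simp)
theorem Cinf_x : x2 K ∈ Cinf p K := by
  have h := mul_mem (Cinf_y (K := K) p) (Cinf_v p)
  rwa [mul_div_cancel₀ _ y_ne] at h

theorem Cinf_w' (i : ι) (m : ℕ) : x2 K ^ (m + 2) / lin2 K (p i) ∈ Cinf p K := by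
  have h := mul_mem (pow_mem (Cinf_x (K := K) p) m) (Cinf_w p i)
  rwa [← mul_div_assoc, ← pow_add] at h

variable (i : ι) (j : ℕ)

theorem Cbr_a : lin2 K (p i) / x2 K ^ (j + 2) ∈ Cbr p K i j := Algebra.subset_adjoin (by simp)
theorem Cbr_q : x2 K ^ (j + 3) / lin2 K (p i) ∈ Cbr p K i j := Algebra.subset_adjoin (by simp)
theorem Cbr_m (i' : ι) (h : i' ≠ i) : x2 K / lin2 K (p i') ∈ Cbr p K i j :=
  Algebra.subset_adjoin (by right; exact ⟨⟨i', h⟩, rfl⟩)

theorem aq_eq : lin2 K (p i) / x2 K ^ (j + 2) * (x2 K ^ (j + 3) / lin2 K (p i)) = x2 K := by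
  have h1 : lin2 K (p i) ≠ 0 := lin_ne _
  have h2 : x2 K ≠ 0 := x_ne
  field_simp
  rw [pow_succ]

theorem Cbr_x : x2 K ∈ Cbr p K i j := by
  have h := mul_mem (Cbr_a (K := K) p i j) (Cbr_q p i j)
  rwa [aq_eq] at h

theorem Cbr_l : lin2 K (p i) ∈ Cbr p K i j := by
  have h := mul_mem (Cbr_a (K := K) p i j) (pow_mem (Cbr_x p i j) (j + 2))
  rwa [div_mul_cancel₀ _ (pow_ne_zero _ x_ne)] at h

theorem y_eq (a : ℂ) : y2 K = lin2 K a - algebraMap ℂ K a * x2 K := by
  rw [lin2]; ring

theorem Cbr_y : y2 K ∈ Cbr p K i j := by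
  rw [y_eq (p i)]
  exact sub_mem (Cbr_l p i j) (mul_mem (Subalgebra.algebraMap_mem _ _) (Cbr_x p i j))

/-- `l_i / x^(m+2)` for `m ≤ j` -/
theorem Cbr_a' (m : ℕ) (hm : m ≤ j + 2) : lin2 K (p i) / x2 K ^ m ∈ Cbr p K i j := by
  have h := mul_mem (Cbr_a (K := K) p i j) (pow_mem (Cbr_x p i j) (j + 2 - m))
  have h2 : x2 K ≠ 0 := x_ne
  have e : x2 K ^ (j + 2) = x2 K ^ (j + 2 - m) * x2 K ^ m := by
    rw [← pow_add]; congr 1; omega
  rwa [e, div_mul_eq_mul_div, mul_comm (lin2 K (p i)),
    mul_div_mul_left _ _ (pow_ne_zero _ h2)] at h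

/-- `x^m / l_i` for `m ≥ j + 3` -/
theorem Cbr_q' (m : ℕ) (hm : j + 3 ≤ m) : x2 K ^ m / lin2 K (p i) ∈ Cbr p K i j := by
  have h := mul_mem (pow_mem (Cbr_x (K := K) p i j) (m - (j + 3))) (Cbr_q p i j)
  have e : x2 K ^ m = x2 K ^ (m - (j + 3)) * x2 K ^ (j + 3) := by
    rw [← pow_add]; congr 1; omega
  rwa [← mul_div_assoc, ← e] at h

/-- `x^m / l_i'` for `m ≥ 1` -/
theorem Cbr_m' (i' : ι) (h : i' ≠ i) (m : ℕ) (hm : 1 ≤ m) :
    x2 K ^ m / lin2 K (p i') ∈ Cbr p K i j := by
  have h := mul_mem (pow_mem (Cbr_x (K := K) p i j) (m - 1)) (Cbr_m p i j i' h)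
  have e : x2 K ^ m = x2 K ^ (m - 1) * x2 K := by
    rw [← pow_succ]; congr 1; omega
  rwa [← mul_div_assoc, ← e] at h

theorem Cbr_u : y2 K / x2 K ∈ Cbr p K i j := by
  have h := sub_mem (Cbr_a' (K := K) p i j 1 (by omega))
    (Subalgebra.algebraMap_mem (Cbr p K i j) (p i))
  have h2 : x2 K ≠ 0 := x_ne
  have e : y2 K / x2 K = lin2 K (p i) / x2 K ^ 1 - algebraMap ℂ K (p i) := by
    rw [lin2]; field_simp; ring
  rwa [e]

end mem

variable {e : ι → ℕ} [Fintype ι] [DecidableEq ι]

theorem R_le (S : Subalgebra ℂ K) (hx : x2 K ∈ S) (hy : y2 K ∈ S)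
    (hz : ∀ i, x2 K ^ (e i) / lin2 K (p i) ∈ S) : surfaceRing K p e ≤ S := by
  refine Algebra.adjoin_le ?_
  rintro g ((rfl | rfl) | ⟨i, rfl⟩)
  · exact hx
  · exact hy
  · exact hz i

/-- The pattern of the generator `F_{i,j}` -/
def sbr (t0 : T e) : T e → Bool := fun t => decide (t.1 = t0.1) && decide ((t.2 : ℕ) ≤ t0.2)

variable (he : ∀ i, 3 ≤ e i)

include he

theorem R_le_C0 : surfaceRing K p e ≤ C0 p K := by
  refine R_le p _ (C0_x p) (C0_y p) fun i => ?_
  have h := C0_w' (K := K) p i (e i - 2)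
  rwa [Nat.sub_add_cancel (by have := he i; omega)] at h

theorem R_le_Cinf : surfaceRing K p e ≤ Cinf p K := by
  refine R_le p _ (Cinf_x p) (Cinf_y p) fun i => ?_
  have h := Cinf_w' (K := K) p i (e i - 2)
  rwa [Nat.sub_add_cancel (by have := he i; omega)] at h

theorem R_le_Cbr (t : T e) : surfaceRing K p e ≤ Cbr p K t.1 t.2 := by
  refine R_le p _ (Cbr_x p _ _) (Cbr_y p _ _) fun i => ?_
  by_cases h : i = t.1
  · subst h
    exact Cbr_q' p _ _ _ (by have := t.2.2; omega)
  · exact Cbr_m' p _ _ _ h _ (by have := he i; omega)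

theorem chart_zero : chart (surfaceRing K p e) (J p e K) (gen p K false (fun _ => false))
    (gen_mem p _ _) = C0 p K := by
  apply le_antisymm
  · refine chart_le p _ _ (gen_ne p _ _) _ (R_le_C0 p he) fun b s => ?_
    refine gen_div_mem p _ _ _ _ _ ?_ fun t => ?_
    · unfold fac0
      simp only [Bool.false_eq_true, if_false]
      split_ifs
      · exact C0_u p
      · rw [div_self x_ne]; exact one_mem _
    · unfold fac
      simp only [Bool.false_eq_true, if_false]
      split_ifs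
      · exact C0_w' p _ _
      · rw [div_self (lin_ne _)]; exact one_mem _
  · refine Algebra.adjoin_le ?_
    rintro g ((rfl | rfl) | ⟨i, rfl⟩)
    · exact R_le_chart p _ _ (x_mem_R p)
    · refine mem_chart_of_mul p _ _ _ ?_
      rw [gen_inf]
      exact gen_mem p _ _
    · refine mem_chart_of_mul p _ _ _ ?_
      have h := gen_update_true (K := K) (e := e) p false (fun _ => false)
        ⟨i, ⟨0, by have := he i; omega⟩⟩ rfl
      simp only [Nat.zero_add] at h
      rw [h]
      exact gen_mem p _ _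

theorem chart_inf : chart (surfaceRing K p e) (J p e K) (gen p K true (fun _ => false))
    (gen_mem p _ _) = Cinf p K := by
  apply le_antisymm
  · refine chart_le p _ _ (gen_ne p _ _) _ (R_le_Cinf p he) fun b s => ?_
    refine gen_div_mem p _ _ _ _ _ ?_ fun t => ?_
    · unfold fac0
      simp only [if_true]
      split_ifs
      · rw [div_self y_ne]; exact one_mem _
      · exact Cinf_v p
    · unfold fac
      simp only [Bool.false_eq_true, if_false]
      split_ifs
      · exact Cinf_w' p _ _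
      · rw [div_self (lin_ne _)]; exact one_mem _
  · refine Algebra.adjoin_le ?_
    rintro g ((rfl | rfl) | ⟨i, rfl⟩)
    · exact R_le_chart p _ _ (y_mem_R p)
    · refine mem_chart_of_mul p _ _ _ ?_
      rw [gen_zero]
      exact gen_mem p _ _
    · refine mem_chart_of_mul p _ _ _ ?_
      have h := gen_update_true (K := K) (e := e) p true (fun _ => false)
        ⟨i, ⟨0, by have := he i; omega⟩⟩ rfl
      simp only [Nat.zero_add] at h
      rw [h]
      exact gen_mem p _ _

theorem chart_br (hp : Function.Injective p) (t0 : T e) :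
    chart (surfaceRing K p e) (J p e K) (gen p K false (sbr t0))
    (gen_mem p _ _) = Cbr p K t0.1 t0.2 := by
  apply le_antisymm
  · refine chart_le p _ _ (gen_ne p _ _) _ (R_le_Cbr p he t0) fun b s => ?_
    refine gen_div_mem p _ _ _ _ _ ?_ fun t => ?_
    · unfold fac0
      simp only [Bool.false_eq_true, if_false]
      split_ifs
      · exact Cbr_u p _ _
      · rw [div_self x_ne]; exact one_mem _
    · by_cases h : t.1 = t0.1
      · have hl : lin2 K (p t.1) = lin2 K (p t0.1) := by rw [h]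
        by_cases h2 : (t.2 : ℕ) ≤ t0.2
        · have h3 : sbr t0 t = true := by simp [sbr, h, h2]
          rw [h3]
          unfold fac
          simp only [if_true]
          split_ifs
          · rw [div_self (pow_ne_zero _ x_ne)]; exact one_mem _
          · rw [hl]; exact Cbr_a' p _ _ _ (by omega)
        · have h3 : sbr t0 t = false := by simp [sbr, h2]
          rw [h3]
          unfold fac
          simp only [Bool.false_eq_true, if_false]
          split_ifs
          · rw [hl]; exact Cbr_q' p _ _ _ (by omega)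
          · rw [div_self (lin_ne _)]; exact one_mem _
      · have h3 : sbr t0 t = false := by simp [sbr, h]
        rw [h3]
        unfold fac
        simp only [Bool.false_eq_true, if_false]
        split_ifs
        · exact Cbr_m' p _ _ _ h _ (by omega)
        · rw [div_self (lin_ne _)]; exact one_mem _
  · have hR := R_le_chart (K := K) (e := e) p (gen p K false (sbr t0)) (gen_mem p _ _)
    have ha : lin2 K (p t0.1) / x2 K ^ ((t0.2 : ℕ) + 2) ∈
        chart (surfaceRing K p e) (J p e K) (gen p K false (sbr t0)) (gen_mem p _ _) := by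
      refine mem_chart_of_mul p _ _ _ ?_
      rw [gen_update_false p false (sbr t0) t0 (by simp [sbr])]
      exact gen_mem p _ _
    refine Algebra.adjoin_le ?_
    rintro g ((rfl | rfl) | ⟨⟨i', hi'⟩, rfl⟩)
    · exact ha
    · by_cases h : (t0.2 : ℕ) + 1 < e t0.1 - 2
      · refine mem_chart_of_mul p _ _ _ ?_
        have h := gen_update_true (K := K) (e := e) p false (sbr t0)
          ⟨t0.1, ⟨(t0.2 : ℕ) + 1, h⟩⟩ (by simp [sbr])
        simp only [add_assoc] at h
        norm_num at h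
        rw [h]
        exact gen_mem p _ _
      · have h3 : (t0.2 : ℕ) + 3 = e t0.1 := by have := t0.2.2; have := he t0.1; omega
        rw [h3]
        exact hR (z_mem_R p _)
    · have h1 : x2 K ^ 2 / lin2 K (p i') ∈
          chart (surfaceRing K p e) (J p e K) (gen p K false (sbr t0)) (gen_mem p _ _) := by
        refine mem_chart_of_mul p _ _ _ ?_
        have h := gen_update_true (K := K) (e := e) p false (sbr t0)
          ⟨i', ⟨0, by have := he i'; omega⟩⟩ (by simp [sbr, hi'])
        simp only [Nat.zero_add] at h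
        rw [h]
        exact gen_mem p _ _
      have h2 : (algebraMap ℂ K (p i' - p t0.1)) ≠ 0 := by
        intro h0
        rw [map_eq_zero, sub_eq_zero] at h0
        exact hi' (hp h0)
      have e1 : x2 K / lin2 K (p i') = algebraMap ℂ K (p i' - p t0.1)⁻¹ *
          (1 - (lin2 K (p t0.1) / x2 K ^ ((t0.2 : ℕ) + 2)) * x2 K ^ (t0.2 : ℕ) *
            (x2 K ^ 2 / lin2 K (p i'))) := by
        have h3 : lin2 K (p i') ≠ 0 := lin_ne _
        have h4 : x2 K ≠ 0 := x_ne
        have h5 := lin_sub (K := K) (p i') (p t0.1)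
        rw [map_inv₀]
        have h6 : (lin2 K (p t0.1) / x2 K ^ ((t0.2 : ℕ) + 2)) * x2 K ^ (t0.2 : ℕ) *
            (x2 K ^ 2 / lin2 K (p i')) = lin2 K (p t0.1) / lin2 K (p i') := by
          field_simp
          rw [pow_add]; ring
        rw [h6]
        field_simp
        rw [h5]; ring
      show x2 K / lin2 K (p i') ∈ _
      rw [e1]
      exact mul_mem (Subalgebra.algebraMap_mem _ _) (sub_mem (one_mem _)
        (mul_mem (mul_mem ha (pow_mem (hR (x_mem_R p)) _)) h1))

end Pool.Agent.V5helper91.Kol
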