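import Pool.Agent.V5helper91.Kol.Charts

/-!
# The charts cover the blow-up of `J`
-/

set_option linter.style.haveILetI false
set_option linter.unusedSectionVars false

namespace Pool.Agent.V5helper91.Kol

open Polynomial Pool.Agent.V5helper94.Kol

variable {K : Type} [Field K] [Algebra ℂ K] [Algebra P2 K] [IsScalarTower ℂ P2 K]
  [IsFractionRing P2 K]

variable {ι : Type} (p : ι → ℂ) {e : ι → ℕ} [Fintype ι] [DecidableEq ι]

/-- weights -/
def wt (t : T e) (b : Bool) : ℕ := if b then (t.2 : ℕ) + 1 else 0

/-- complexity of a pattern -/
def mu (s : T e → Bool) : ℕ := ∑ t, wt t (s t)

theorem mu_update (s : T e → Bool) (t : T e) (c : Bool) :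
    mu (Function.update s t c) + wt t (s t) = mu s + wt t c := by
  have h1 : (fun t' => wt t' (Function.update s t c t')) =
      Function.update (fun t' => wt t' (s t')) t (wt t c) := by
    funext t'
    by_cases h : t' = t
    · subst h; simp
    · simp [Function.update_of_ne h]
  unfold mu
  rw [h1, Finset.sum_update_of_mem (Finset.mem_univ t),
    Finset.sum_eq_add_sum_sdiff_singleton_of_mem (Finset.mem_univ t) (fun t' => wt t' (s t'))]
  ring

/-- Index set of the charts -/
abbrev Idx (e : ι → ℕ) : Type := Option (Option (T e))

/-- The generators defining the charts -/
noncomputable def FF (K : Type) [Field K] [Algebra ℂ K] [Algebra P2 K] : Idx e → K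
  | none => gen (e := e) p K false (fun _ => false)
  | some none => gen (e := e) p K true (fun _ => false)
  | some (some t) => gen p K false (sbr t)

theorem smul_memP {R : Subalgebra ℂ K} (P : Submodule R K) (r : K) (hr : r ∈ R) (g : K)
    (hg : g ∈ P) : r * g ∈ P := P.smul_mem ⟨r, hr⟩ hg

theorem cover (hp : Function.Injective p) (P : ℕ → Submodule (surfaceRing K p e) K)
    (hP2 : ∀ m n : ℕ, ∀ a ∈ (J p e K) ^ m, ∀ b ∈ P n, a * b ∈ P (m + n))
    (hP3 : ∀ m n : ℕ, ∀ a ∈ (J p e K) ^ m, ∀ b ∈ (J p e K) ^ n, a * b ∈ P (m + n) →
      a ∈ P m ∨ b ∈ P n)
    (hP4 : ¬ J p e K ≤ P 1) : ∃ i : Idx e, FF p K i ∉ P 1 := by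
  by_contra hcon
  push Not at hcon
  apply hP4
  unfold J
  rw [Submodule.span_le]
  rintro _ ⟨⟨b, s⟩, rfl⟩
  show gen p K b s ∈ P 1
  have hx : x2 K ≠ 0 := x_ne
  have hy : y2 K ≠ 0 := y_ne
  have key : ∀ (n : ℕ) (b : Bool) (s : T e → Bool), mu s + b.toNat = n →
      gen p K b s ∈ P 1 := by
    intro n
    induction n using Nat.strong_induction_on with
    | _ n ih =>
      intro b s hn
      by_cases hs0 : s = fun _ => false
      · subst hs0
        cases b
        · exact hcon none
        · exact hcon (some none)
      obtain ⟨t0, ht0⟩ : ∃ t, s t = true := by
        by_contra hne
        push Not at hne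
        exact hs0 (funext fun t => by simpa using hne t)
      cases b with
      | true =>
        -- move 3
        have hG1 : gen p K false s ∈ P 1 := ih (mu s) (by simp at hn; omega) false s (by simp)
        have hmem := gen_mem (K := K) (e := e) p
        have h1 := gen_update_false (K := K) p true s t0 ht0
        have h2 := gen_zero (K := K) p s
        have hsq : gen p K true s * gen p K true s ∈ P (1 + 1) := by
          have e1 : gen p K true s * gen p K true s =
              x2 K ^ ((t0.2 : ℕ) + 1) * (gen p K true (Function.update s t0 false) *
                gen p K false s) - algebraMap ℂ K (p t0.1) * (gen p K true s * gen p K false s) := by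
            rw [← h1, ← h2]
            generalize gen p K true s = g
            rw [lin2]
            field_simp
            ring
          rw [e1]
          refine sub_mem (smul_memP _ _ (pow_mem (x_mem_R p) _) _ ?_)
            (smul_memP _ _ (Subalgebra.algebraMap_mem _ _) _ ?_)
          · exact hP2 1 1 _ (by rw [pow_one]; exact hmem _ _) _ hG1
          · exact hP2 1 1 _ (by rw [pow_one]; exact hmem _ _) _ hG1
        rcases hP3 1 1 _ (by rw [pow_one]; exact hmem _ _) _ (by rw [pow_one]; exact hmem _ _)
          hsq with h | h <;> exact h
      | false =>
        by_cases h2 : ∃ t1, s t1 = true ∧ t1.1 ≠ t0.1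
        · -- move 2
          obtain ⟨t1, ht1, hne⟩ := h2
          have h1 := gen_update_false (K := K) p false s t0 ht0
          have h2 := gen_update_false (K := K) p false s t1 ht1
          have hmu0 := mu_update s t0 false
          have hmu1 := mu_update s t1 false
          rw [ht0] at hmu0
          rw [ht1] at hmu1
          simp only [wt, if_true, Bool.false_eq_true, if_false, Bool.toNat_false] at hmu0 hmu1 hn
          have g0 := ih (mu (Function.update s t0 false)) (by omega) false (Function.update s t0 false) rfl
          have g1 := ih (mu (Function.update s t1 false)) (by omega) false (Function.update s t1 false) rfl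
          have hc : algebraMap ℂ K (p t0.1 - p t1.1) ≠ 0 := by
            intro h0
            rw [map_eq_zero, sub_eq_zero] at h0
            exact hne (hp h0).symm
          have e1 : gen p K false s = algebraMap ℂ K (p t0.1 - p t1.1)⁻¹ *
              (x2 K ^ ((t0.2 : ℕ) + 1) * gen p K false (Function.update s t0 false) -
              x2 K ^ ((t1.2 : ℕ) + 1) * gen p K false (Function.update s t1 false)) := by
            rw [← h1, ← h2]
            generalize gen p K false s = g
            rw [map_inv₀]
            have h5 := lin_sub (K := K) (p t0.1) (p t1.1)
            have h6 : lin2 K (p t0.1) = lin2 K (p t1.1) + algebraMap ℂ K (p t0.1 - p t1.1) * x2 K :=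
              by rw [← h5]; ring
            rw [h6]
            field_simp
            ring
          rw [e1]
          refine smul_memP _ _ (Subalgebra.algebraMap_mem _ _) _ (sub_mem ?_ ?_)
          · exact smul_memP _ _ (pow_mem (x_mem_R p) _) _ g0
          · exact smul_memP _ _ (pow_mem (x_mem_R p) _) _ g1
        · push Not at h2
          by_cases h3 : ∃ t1 t2, s t1 = false ∧ s t2 = true ∧ t1.1 = t2.1 ∧ (t1.2 : ℕ) < t2.2
          · -- move 1
            obtain ⟨t1, t2, hs1, hs2, h12, hlt⟩ := h3
            have hne : t2 ≠ t1 := by rintro rfl; omega
            have hs2' : Function.update s t1 true t2 = true := by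
              rw [Function.update_of_ne hne, hs2]
            have e1 := gen_update_true (K := K) p false s t1 hs1
            have e2 := gen_update_false (K := K) p false (Function.update s t1 true) t2 hs2'
            have hmu1 := mu_update s t1 true
            have hmu2 := mu_update (Function.update s t1 true) t2 false
            rw [hs1] at hmu1
            rw [hs2'] at hmu2
            simp only [wt, if_true, Bool.false_eq_true, if_false, Bool.toNat_false] at hmu1 hmu2 hn
            have g1 := ih (mu (Function.update (Function.update s t1 true) t2 false)) (by omega) false
              (Function.update (Function.update s t1 true) t2 false) rfl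
            have hl : lin2 K (p t1.1) = lin2 K (p t2.1) := by rw [h12]
            have hl2 : lin2 K (p t2.1) ≠ 0 := lin_ne _
            have e3 : gen p K false s = x2 K ^ ((t2.2 : ℕ) - t1.2) *
                gen p K false (Function.update (Function.update s t1 true) t2 false) := by
              rw [← e2, ← e1, hl]
              have e4 : x2 K ^ ((t2.2 : ℕ) + 2) = x2 K ^ ((t2.2 : ℕ) - t1.2) *
                x2 K ^ ((t1.2 : ℕ) + 2) := by
                rw [← pow_add]; congr 1; omega
              rw [e4]
              field_simp
            rw [e3]
            exact smul_memP _ _ (pow_mem (x_mem_R p) _) _ g1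
          · -- terminal
            push Not at h3
            -- the maximal element
            obtain ⟨t1, ht1, hmax⟩ := Finset.exists_max_image
              (Finset.univ.filter fun t => s t = true) (fun t => (t.2 : ℕ))
              ⟨t0, by simp [ht0]⟩
            simp only [Finset.mem_filter, Finset.mem_univ, true_and] at ht1 hmax
            have hs : s = sbr t1 := by
              funext t
              by_cases h : t.1 = t1.1 ∧ (t.2 : ℕ) ≤ t1.2
              · have : sbr t1 t = true := by simp [sbr, h.1, h.2]
                rw [this]
                by_contra hf
                have hf' : s t = false := by simpa using hf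
                have := h3 t t1 hf' ht1 h.1
                have hval : (t.2 : ℕ) = t1.2 := by omega
                have : t = t1 := by
                  obtain ⟨i, a⟩ := t
                  obtain ⟨i1, a1⟩ := t1
                  simp only at h hval
                  obtain ⟨rfl, _⟩ := h
                  rw [Fin.ext hval]
                rw [this] at hf
                exact hf ht1
              · have : sbr t1 t = false := by
                  simp only [sbr, Bool.and_eq_false_iff, decide_eq_false_iff_not]
                  tauto
                rw [this]
                by_contra hf
                have hf' : s t = true := by simpa using hf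
                have ha := h2 t hf'
                have hb := h2 t1 ht1
                exact h ⟨ha.trans hb.symm, hmax t hf'⟩
            rw [hs]
            exact hcon (some (some t1))
  exact key _ b s rfl

end Pool.Agent.V5helper91.Kol
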