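import Pool.Agent.V5helper94.Kol.BlowDefs
import Pool.Agent.V5helper91.Kol.Base

/-!
# The ideal `J` and its generators
-/

set_option linter.style.haveILetI false
set_option linter.unusedSectionVars false

namespace Pool.Agent.V5helper91.Kol

open Polynomial Pool.Agent.V5helper94.Kol

variable {K : Type} [Field K] [Algebra ℂ K] [Algebra P2 K] [IsScalarTower ℂ P2 K]
  [IsFractionRing P2 K]

variable {ι : Type} (p : ι → ℂ) (e : ι → ℕ)

/-- Index set of the factors `(l_i, x^{m+2})`. -/
abbrev T : Type := Σ i : ι, Fin (e i - 2)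

/-- generators of `(x, y)` -/
noncomputable def fac0 (K : Type) [Field K] [Algebra ℂ K] [Algebra P2 K] (b : Bool) : K :=
  if b then y2 K else x2 K

variable {e}

/-- generators of `(l_i, x^{m+2})` -/
noncomputable def fac (K : Type) [Field K] [Algebra ℂ K] [Algebra P2 K] (t : T e) (b : Bool) : K :=
  if b then x2 K ^ ((t.2 : ℕ) + 2) else lin2 K (p t.1)

theorem fac0_ne (b : Bool) : fac0 K b ≠ 0 := by
  unfold fac0
  split_ifs
  · exact y_ne
  · exact x_ne

theorem fac_ne (t : T e) (b : Bool) : fac p K t b ≠ 0 := by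
  unfold fac
  split_ifs
  · exact pow_ne_zero _ x_ne
  · exact lin_ne _

variable [Fintype ι] [DecidableEq ι]

/-- generators of `J` -/
noncomputable def gen (K : Type) [Field K] [Algebra ℂ K] [Algebra P2 K] (b : Bool)
    (s : T e → Bool) : K :=
  fac0 K b * ∏ t, fac p K t (s t)

theorem gen_ne (b : Bool) (s : T e → Bool) : gen p K b s ≠ 0 :=
  mul_ne_zero (fac0_ne b) (Finset.prod_ne_zero_iff.mpr fun t _ => fac_ne p t _)

theorem gen_update (b : Bool) (s : T e → Bool) (t : T e) (c : Bool) :
    gen p K b (Function.update s t c) * fac p K t (s t) = gen p K b s * fac p K t c := by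
  have h1 : (fun t' => fac p K t' (Function.update s t c t')) =
      Function.update (fun t' => fac p K t' (s t')) t (fac p K t c) := by
    funext t'
    by_cases h : t' = t
    · subst h; simp
    · simp [Function.update_of_ne h]
  unfold gen
  rw [h1, Finset.prod_update_of_mem (Finset.mem_univ t),
    Finset.prod_eq_mul_prod_sdiff_singleton_of_mem (Finset.mem_univ t)
      (fun t' => fac p K t' (s t'))]
  ring

theorem gen_update_true (b : Bool) (s : T e → Bool) (t : T e) (hs : s t = false) :
    x2 K ^ ((t.2 : ℕ) + 2) / lin2 K (p t.1) * gen p K b s =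
      gen p K b (Function.update s t true) := by
  have h := gen_update (K := K) p b s t true
  rw [hs] at h
  have h2 : lin2 K (p t.1) ≠ 0 := lin_ne _
  simp only [fac, if_true, Bool.false_eq_true, if_false] at h
  field_simp
  linear_combination -h

theorem gen_update_false (b : Bool) (s : T e → Bool) (t : T e) (hs : s t = true) :
    lin2 K (p t.1) / x2 K ^ ((t.2 : ℕ) + 2) * gen p K b s =
      gen p K b (Function.update s t false) := by
  have h := gen_update (K := K) p b s t false
  rw [hs] at h
  have h2 : x2 K ≠ 0 := x_ne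
  simp only [fac, if_true, Bool.false_eq_true, if_false] at h
  field_simp
  linear_combination -h

theorem gen_inf (s : T e → Bool) : y2 K / x2 K * gen p K false s = gen p K true s := by
  have h2 : x2 K ≠ 0 := x_ne
  simp only [gen, fac0, if_true, Bool.false_eq_true, if_false]
  field_simp

theorem gen_zero (s : T e → Bool) : x2 K / y2 K * gen p K true s = gen p K false s := by
  have h2 : y2 K ≠ 0 := y_ne
  simp only [gen, fac0, if_true, Bool.false_eq_true, if_false]
  field_simp

variable (e)

/-- The ideal `J`. -/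
noncomputable def J (K : Type) [Field K] [Algebra ℂ K] [Algebra P2 K] :
    Submodule (surfaceRing K p e) K :=
  Submodule.span (surfaceRing K p e)
    (Set.range fun bs : Bool × (T e → Bool) => gen p K bs.1 bs.2)

variable {e}

theorem gen_mem (b : Bool) (s : T e → Bool) : gen p K b s ∈ J p e K :=
  Submodule.subset_span ⟨(b, s), rfl⟩

theorem J_fg : (J p e K).FG := by
  refine Submodule.fg_span ?_
  exact Set.finite_range _

theorem x_mem_R : x2 K ∈ surfaceRing K p e := Algebra.subset_adjoin (by simp)

theorem y_mem_R : y2 K ∈ surfaceRing K p e := Algebra.subset_adjoin (by simp)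

theorem z_mem_R (i : ι) : x2 K ^ (e i) / lin2 K (p i) ∈ surfaceRing K p e :=
  Algebra.subset_adjoin (by right; exact ⟨i, rfl⟩)

theorem lin_mem (S : Subalgebra ℂ K) (hx : x2 K ∈ S) (hy : y2 K ∈ S) (a : ℂ) : lin2 K a ∈ S :=
  S.add_mem hy (S.mul_mem (S.algebraMap_mem a) hx)

theorem fac_mem (S : Subalgebra ℂ K) (hx : x2 K ∈ S) (hy : y2 K ∈ S) (t : T e) (b : Bool) :
    fac p K t b ∈ S := by
  unfold fac
  split_ifs
  · exact S.pow_mem hx _
  · exact lin_mem S hx hy _

theorem J_le (g : K) (hg : g ∈ J p e K) : g ∈ surfaceRing K p e := by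
  induction hg using Submodule.span_induction with
  | mem g hg =>
    obtain ⟨⟨b, s⟩, rfl⟩ := hg
    refine mul_mem ?_ (prod_mem fun t _ => fac_mem p _ (x_mem_R p) (y_mem_R p) t _)
    unfold fac0
    split_ifs
    · exact y_mem_R p
    · exact x_mem_R p
  | zero => exact zero_mem _
  | add a b _ _ ha hb => exact add_mem ha hb
  | smul a b _ hb =>
    rw [Subalgebra.smul_def]
    exact mul_mem a.2 hb

/-- upper bound for a chart -/
theorem chart_le (F : K) (hF : F ∈ J p e K) (hF0 : F ≠ 0) (S : Subalgebra ℂ K)
    (hR : surfaceRing K p e ≤ S)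
    (hJ : ∀ (b : Bool) (s : T e → Bool), gen p K b s / F ∈ S) : chart (surfaceRing K p e) (J p e K) F hF ≤ S := by
  have h1 : ∀ g ∈ J p e K, g / F ∈ S := by
    intro g hg
    induction hg using Submodule.span_induction with
    | mem g hg =>
      obtain ⟨⟨b, s⟩, rfl⟩ := hg
      exact hJ b s
    | zero => simp
    | add a b _ _ ha hb => rw [add_div]; exact add_mem ha hb
    | smul a b _ hb =>
      rw [Subalgebra.smul_def, smul_eq_mul, mul_div_assoc]
      exact mul_mem (hR a.2) hb
  have h2 : ∀ n : ℕ, ∀ g ∈ (J p e K) ^ n, g / F ^ n ∈ S := by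
    intro n
    induction n with
    | zero =>
      intro g hg
      rw [pow_zero, Submodule.mem_one] at hg
      obtain ⟨a, rfl⟩ := hg
      rw [pow_zero, div_one]
      exact hR a.2
    | succ n ih =>
      intro g hg
      rw [pow_succ] at hg
      refine Submodule.mul_induction_on hg ?_ ?_
      · intro a ha b hb
        rw [pow_succ, mul_div_mul_comm]
        exact mul_mem (ih a ha) (h1 b hb)
      · intro a b ha hb
        rw [add_div]; exact add_mem ha hb
  rintro f ⟨n, hn⟩
  have h3 := h2 n _ hn
  rwa [mul_div_assoc, div_self (pow_ne_zero n hF0), mul_one] at h3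

theorem mem_chart_of_mul (F : K) (hF : F ∈ J p e K) (g : K) (h : g * F ∈ J p e K) :
    g ∈ chart (surfaceRing K p e) (J p e K) F hF :=
  ⟨1, by rwa [pow_one, pow_one]⟩

theorem R_le_chart (F : K) (hF : F ∈ J p e K) :
    surfaceRing K p e ≤ chart (surfaceRing K p e) (J p e K) F hF := by
  intro g hg
  refine ⟨0, ?_⟩
  rw [pow_zero, pow_zero, mul_one, Submodule.mem_one]
  exact ⟨⟨g, hg⟩, rfl⟩

/-- ratio of generators -/
theorem gen_div_mem (S : Subalgebra ℂ K) (b b0 : Bool) (s s0 : T e → Bool)
    (h0 : fac0 K b / fac0 K b0 ∈ S) (h : ∀ t, fac p K t (s t) / fac p K t (s0 t) ∈ S) :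
    gen p K b s / gen p K b0 s0 ∈ S := by
  unfold gen
  rw [mul_div_mul_comm, ← Finset.prod_div_distrib]
  exact mul_mem h0 (prod_mem fun t _ => h t)

end Pool.Agent.V5helper91.Kol
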