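import Pool.Agent.V5helper91.Kol.Split

/-!
# Smoothness of the charts
-/

set_option linter.style.haveILetI false
set_option linter.unusedSectionVars false

namespace Pool.Agent.V5helper91.Kol

open Polynomial Pool.Agent.V5helper94.Kol

section general

variable {k K : Type} [Field k] [Field K] [Algebra k K]

theorem away_le (S S' : Subalgebra k K) (h : K) (hh : h ∈ S) (h0 : h ≠ 0) (hST : S ≤ S')
    (hinv : h⁻¹ ∈ S') : away S h hh ≤ S' := by
  rintro f ⟨n, hn⟩
  have h1 := S'.mul_mem (hST hn) (S'.pow_mem hinv n)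
  rwa [mul_assoc, ← mul_pow, mul_inv_cancel₀ h0, one_pow, mul_one] at h1

/-- comaximal elements -/
theorem smooth_of_two (S : Subalgebra k K) (g h w w' : K) (hg : g ∈ S) (hh : h ∈ S) (hw : w ∈ S)
    (hw' : w' ∈ S)
    (h1 : g * w + h * w' = 1) (g0 : g ≠ 0) (h0 : h ≠ 0) (sg : Algebra.Smooth k (away S g hg))
    (sh : Algebra.Smooth k (away S h hh)) : Algebra.Smooth k S := by
  refine smooth_of_span S {⟨g, hg⟩, ⟨h, hh⟩} ?_ ?_ ?_
  · rw [Ideal.eq_top_iff_one, Ideal.mem_span_pair]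
    exact ⟨⟨w, hw⟩, ⟨w', hw'⟩, Subtype.ext (by
      show w * g + w' * h = 1
      rw [← h1]; ring)⟩
  · rintro r (rfl | rfl)
    · exact g0
    · exact h0
  · rintro r (rfl | rfl)
    · exact sg
    · exact sh

end general

variable {K : Type} [Field K] [Algebra ℂ K] [Algebra P2 K] [IsScalarTower ℂ P2 K]
  [IsFractionRing P2 K]

variable {ι : Type} (p : ι → ℂ) [Fintype ι] [DecidableEq ι]

/-- `∏_{i' ≠ i} l_i' / x` -/
noncomputable def hx (K : Type) [Field K] [Algebra ℂ K] [Algebra P2 K] (i : ι) : K :=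
  ∏ i' ∈ Finset.univ.erase i, lin2 K (p i') / x2 K

theorem hx_ne (i : ι) : hx p K i ≠ 0 :=
  Finset.prod_ne_zero_iff.mpr fun _ _ => div_ne_zero (lin_ne _) x_ne

theorem lx_eq (a : ℂ) : lin2 K a / x2 K = y2 K / x2 K + algebraMap ℂ K a := by
  have h2 : x2 K ≠ 0 := x_ne
  rw [lin2]; field_simp

theorem lx_mem (S : Subalgebra ℂ K) (hu : y2 K / x2 K ∈ S) (a : ℂ) : lin2 K a / x2 K ∈ S := by
  rw [lx_eq]
  exact add_mem hu (S.algebraMap_mem a)

theorem hx_mem (S : Subalgebra ℂ K) (hu : y2 K / x2 K ∈ S) (i : ι) : hx p K i ∈ S :=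
  prod_mem fun _ _ => lx_mem S hu _

/-- `x^m / l_i' * h_i` is `x^(m-1)` times a polynomial in `u` -/
theorem div_mul_hx_mem (S : Subalgebra ℂ K) (hu : y2 K / x2 K ∈ S) (hx' : x2 K ∈ S) (i i' : ι)
    (h : i' ≠ i) (m : ℕ) : x2 K ^ (m + 1) / lin2 K (p i') * hx p K i ∈ S := by
  have h2 : x2 K ≠ 0 := x_ne
  have h3 : lin2 K (p i') ≠ 0 := lin_ne _
  rw [hx, ← Finset.mul_prod_erase _ _ (Finset.mem_erase.mpr ⟨h, Finset.mem_univ i'⟩)]
  have e : x2 K ^ (m + 1) / lin2 K (p i') * (lin2 K (p i') / x2 K *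
    ∏ x ∈ (Finset.univ.erase i).erase i', lin2 K (p x) / x2 K) =
    x2 K ^ m * ∏ x ∈ (Finset.univ.erase i).erase i', lin2 K (p x) / x2 K := by
    rw [← mul_assoc]
    congr 1
    field_simp
    ring
  rw [e]
  exact mul_mem (pow_mem hx' _) (prod_mem fun _ _ => lx_mem S hu _)

theorem smooth_pair' (S : Subalgebra ℂ K) (a q : K) (hS : S = Algebra.adjoin ℂ {a, q})
    (hx : x2 K ∈ S) (hy : y2 K ∈ S) : Algebra.Smooth ℂ S := by
  subst hS
  exact smooth_pair a q hx hy

theorem smooth_Cbr (i : ι) (j : ℕ) : Algebra.Smooth ℂ (Cbr p K i j) := by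
  have h2 : x2 K ≠ 0 := x_ne
  set a : K := lin2 K (p i) / x2 K ^ (j + 2) with ha
  set q : K := x2 K ^ (j + 3) / lin2 K (p i) with hq
  set S0 : Subalgebra ℂ K := Algebra.adjoin ℂ {a, q} with hS0
  have haS : a ∈ S0 := Algebra.subset_adjoin (by simp)
  have hqS : q ∈ S0 := Algebra.subset_adjoin (by simp)
  have hxS : x2 K ∈ S0 := by
    have h := mul_mem haS hqS
    rwa [ha, hq, aq_eq] at h
  have hlS : lin2 K (p i) / x2 K ∈ S0 := by
    have h := mul_mem haS (pow_mem hxS (j + 1))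
    have e : a * x2 K ^ (j + 1) = lin2 K (p i) / x2 K := by
      rw [ha, pow_succ (x2 K) (j + 1)]
      field_simp
    rwa [e] at h
  have huS : y2 K / x2 K ∈ S0 := by
    have e : y2 K / x2 K = lin2 K (p i) / x2 K - algebraMap ℂ K (p i) := by rw [lx_eq]; ring
    rw [e]
    exact sub_mem hlS (S0.algebraMap_mem _)
  have hyS : y2 K ∈ S0 := by
    have h := mul_mem hxS huS
    rwa [mul_div_cancel₀ _ h2] at h
  have hS : Algebra.Smooth ℂ S0 := smooth_pair' S0 a q rfl hxS hyS
  have e : Cbr p K i j = away S0 (hx p K i) (hx_mem p S0 huS i) := by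
    apply le_antisymm
    · refine Algebra.adjoin_le ?_
      rintro g ((rfl | rfl) | ⟨⟨i', hi'⟩, rfl⟩)
      · exact le_away _ _ _ haS
      · exact le_away _ _ _ hqS
      · refine ⟨1, ?_⟩
        have h := div_mul_hx_mem (K := K) p S0 huS hxS i i' hi' 0
        rwa [zero_add, pow_one, ← pow_one (hx p K i)] at h
    · refine away_le _ _ _ _ (hx_ne p i) ?_ ?_
      · refine Algebra.adjoin_le ?_
        rintro g (rfl | rfl)
        · exact Cbr_a p i j
        · exact Cbr_q p i j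
      · rw [hx, ← Finset.prod_inv_distrib]
        refine prod_mem fun i' hi' => ?_
        rw [inv_div]
        exact Cbr_m p i j i' (Finset.ne_of_mem_erase hi')
  rw [e]
  exact smooth_away S0 _ _ (hx_ne p i) hS

theorem sum_hx (hp : Function.Injective p) [Nonempty ι] :
    ∑ i, algebraMap ℂ K (∏ i' ∈ Finset.univ.erase i, (p i' - p i)⁻¹) * hx p K i = 1 := by
  have h1 := Lagrange.sum_basis (F := ℂ) (s := Finset.univ) (v := fun i => - p i)
    (fun a _ b _ h => hp (by simpa using h)) Finset.univ_nonempty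
  have h2 := congrArg (Polynomial.aeval (y2 K / x2 K)) h1
  rw [map_sum, map_one] at h2
  rw [← h2]
  refine Finset.sum_congr rfl fun i _ => ?_
  rw [Lagrange.basis, map_prod, hx, map_prod, ← Finset.prod_mul_distrib]
  refine Finset.prod_congr rfl fun i' _ => ?_
  rw [Lagrange.basisDivisor, map_mul, map_sub, aeval_X, aeval_C, aeval_C, lx_eq]
  congr 1
  · congr 2; ring
  · rw [map_neg]; ring

theorem smooth_C0 (hp : Function.Injective p) [Nonempty ι] : Algebra.Smooth ℂ (C0 p K) := by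
  have h2 : x2 K ≠ 0 := x_ne
  refine smooth_of_span (C0 p K) (Set.range fun i => ⟨hx p K i, hx_mem p _ (C0_u p) i⟩) ?_ ?_ ?_
  · rw [Ideal.eq_top_iff_one]
    have h1 := sum_hx (K := K) p hp
    have e : (1 : C0 p K) = ∑ i, algebraMap ℂ (C0 p K)
        (∏ i' ∈ Finset.univ.erase i, (p i' - p i)⁻¹) * ⟨hx p K i, hx_mem p _ (C0_u p) i⟩ := by
      apply Subtype.ext
      rw [AddSubmonoidClass.coe_finsetSum]
      exact h1.symm
    rw [e]
    exact Ideal.sum_mem _ fun i _ => Ideal.mul_mem_left _ _ (Ideal.subset_span ⟨i, rfl⟩)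
  · rintro _ ⟨i, rfl⟩
    exact hx_ne p i
  · rintro _ ⟨i, rfl⟩
    show Algebra.Smooth ℂ (away (C0 p K) (hx p K i) _)
    set a : K := lin2 K (p i) / x2 K with ha
    set q : K := x2 K ^ 2 / lin2 K (p i) with hq
    set S0 : Subalgebra ℂ K := Algebra.adjoin ℂ {a, q} with hS0
    have haS : a ∈ S0 := Algebra.subset_adjoin (by simp)
    have hqS : q ∈ S0 := Algebra.subset_adjoin (by simp)
    have hxS : x2 K ∈ S0 := by
      have h := mul_mem haS hqS
      have h1 : lin2 K (p i) ≠ 0 := lin_ne _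
      have e : a * q = x2 K := by rw [ha, hq]; field_simp
      rwa [e] at h
    have huS : y2 K / x2 K ∈ S0 := by
      have e : y2 K / x2 K = lin2 K (p i) / x2 K - algebraMap ℂ K (p i) := by rw [lx_eq]; ring
      rw [e]
      exact sub_mem haS (S0.algebraMap_mem _)
    have hyS : y2 K ∈ S0 := by
      have h := mul_mem hxS huS
      rwa [mul_div_cancel₀ _ h2] at h
    have hS : Algebra.Smooth ℂ S0 := smooth_pair' S0 a q rfl hxS hyS
    have e : away (C0 p K) (hx p K i) (hx_mem p _ (C0_u p) i) =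
        away S0 (hx p K i) (hx_mem p S0 huS i) := by
      refine away_eq _ _ _ _ _ _ ?_ ?_ (inv_mem_away _ _ _) (inv_mem_away _ _ _) (hx_ne p i)
        (hx_ne p i)
      · refine Algebra.adjoin_le ?_
        rintro g ((rfl | rfl) | ⟨i', rfl⟩)
        · exact le_away _ _ _ hxS
        · exact le_away _ _ _ huS
        · by_cases h : i' = i
          · subst h
            exact le_away _ _ _ hqS
          · refine ⟨1, ?_⟩
            have h := div_mul_hx_mem (K := K) p S0 huS hxS i i' h 1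
            rwa [one_add_one_eq_two, ← pow_one (hx p K i)] at h
      · refine Algebra.adjoin_le ?_
        rintro g (rfl | rfl)
        · exact le_away _ _ _ (lx_mem _ (C0_u p) _)
        · exact le_away _ _ _ (C0_w p i)
    rw [e]
    exact smooth_away S0 _ _ (hx_ne p i) hS

/-- `∏ l_i / y` -/
noncomputable def hy (K : Type) [Field K] [Algebra ℂ K] [Algebra P2 K] : K :=
  ∏ i, lin2 K (p i) / y2 K

theorem hy_ne : hy p K ≠ 0 :=
  Finset.prod_ne_zero_iff.mpr fun _ _ => div_ne_zero (lin_ne _) y_ne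

theorem ly_eq (a : ℂ) : lin2 K a / y2 K = 1 + x2 K / y2 K * algebraMap ℂ K a := by
  have h2 : y2 K ≠ 0 := y_ne
  rw [lin2]; field_simp

theorem ly_mem (S : Subalgebra ℂ K) (hv : x2 K / y2 K ∈ S) (a : ℂ) : lin2 K a / y2 K ∈ S := by
  rw [ly_eq]
  exact add_mem (one_mem _) (mul_mem hv (S.algebraMap_mem a))

theorem hy_mem (S : Subalgebra ℂ K) (hv : x2 K / y2 K ∈ S) : hy p K ∈ S :=
  prod_mem fun _ _ => ly_mem S hv _

theorem hy_eq (S : Subalgebra ℂ K) (hv : x2 K / y2 K ∈ S) :
    ∃ w ∈ S, hy p K = 1 + x2 K / y2 K * w := by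
  have key : ∀ s : Finset ι, ∃ w ∈ S, ∏ i ∈ s, lin2 K (p i) / y2 K = 1 + x2 K / y2 K * w := by
    intro s
    induction s using Finset.induction_on with
    | empty => exact ⟨0, zero_mem _, by simp⟩
    | insert i s hi ih =>
      obtain ⟨w, hw, e⟩ := ih
      refine ⟨w + algebraMap ℂ K (p i) * (1 + x2 K / y2 K * w), ?_, ?_⟩
      · exact add_mem hw (mul_mem (S.algebraMap_mem _) (add_mem (one_mem _) (mul_mem hv hw)))
      · rw [Finset.prod_insert hi, e, ly_eq]; ring
  exact key _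

theorem smooth_Cinf (hp : Function.Injective p) [Nonempty ι] : Algebra.Smooth ℂ (Cinf p K) := by
  have h1 : x2 K ≠ 0 := x_ne
  have h2 : y2 K ≠ 0 := y_ne
  obtain ⟨w, hw, ew⟩ := hy_eq (K := K) p (Cinf p K) (Cinf_v p)
  refine smooth_of_two (Cinf p K) (x2 K / y2 K) (hy p K) (-w) 1 (Cinf_v p)
    (hy_mem p _ (Cinf_v p)) (neg_mem hw) (one_mem _) (by rw [ew]; ring) (div_ne_zero h1 h2)
    (hy_ne p) ?_ ?_
  · have e : away (Cinf p K) (x2 K / y2 K) (Cinf_v p) = away (C0 p K) (y2 K / x2 K) (C0_u p) := by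
      refine away_eq _ _ _ _ _ _ ?_ ?_ ?_ ?_ (div_ne_zero h1 h2) (div_ne_zero h2 h1)
      · refine Algebra.adjoin_le ?_
        rintro g ((rfl | rfl) | ⟨i', rfl⟩)
        · exact le_away _ _ _ (C0_y p)
        · have h3 := inv_mem_away (C0 p K) (y2 K / x2 K) (C0_u p)
          rwa [inv_div] at h3
        · exact le_away _ _ _ (C0_w p _)
      · refine Algebra.adjoin_le ?_
        rintro g ((rfl | rfl) | ⟨i', rfl⟩)
        · exact le_away _ _ _ (Cinf_x p)
        · have h3 := inv_mem_away (Cinf p K) (x2 K / y2 K) (Cinf_v p)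
          rwa [inv_div] at h3
        · exact le_away _ _ _ (Cinf_w p _)
      · rw [inv_div]
        exact le_away _ _ _ (Cinf_v p)
      · rw [inv_div]
        exact le_away _ _ _ (C0_u p)
    rw [e]
    exact smooth_away _ _ _ (div_ne_zero h2 h1) (smooth_C0 p hp)
  · set S0 : Subalgebra ℂ K := Algebra.adjoin ℂ {y2 K, x2 K / y2 K} with hS0
    have hyS : y2 K ∈ S0 := Algebra.subset_adjoin (by simp)
    have hvS : x2 K / y2 K ∈ S0 := Algebra.subset_adjoin (by simp)
    have hxS : x2 K ∈ S0 := by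
      have h := mul_mem hyS hvS
      rwa [mul_div_cancel₀ _ h2] at h
    have hS : Algebra.Smooth ℂ S0 := smooth_pair' S0 _ _ rfl hxS hyS
    have e : away (Cinf p K) (hy p K) (hy_mem p _ (Cinf_v p)) =
        away S0 (hy p K) (hy_mem p S0 hvS) := by
      refine away_eq _ _ _ _ _ _ ?_ ?_ (inv_mem_away _ _ _) (inv_mem_away _ _ _) (hy_ne p)
        (hy_ne p)
      · refine Algebra.adjoin_le ?_
        rintro g ((rfl | rfl) | ⟨i, rfl⟩)
        · exact le_away _ _ _ hyS
        · exact le_away _ _ _ hvS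
        · refine ⟨1, ?_⟩
          have h3 : lin2 K (p i) ≠ 0 := lin_ne _
          rw [pow_one, hy, ← Finset.mul_prod_erase _ _ (Finset.mem_univ i)]
          have e : x2 K ^ 2 / lin2 K (p i) * (lin2 K (p i) / y2 K *
            ∏ x ∈ Finset.univ.erase i, lin2 K (p x) / y2 K) =
            x2 K * (x2 K / y2 K) * ∏ x ∈ Finset.univ.erase i, lin2 K (p x) / y2 K := by
            rw [← mul_assoc]
            congr 1
            field_simp
          show x2 K ^ 2 / lin2 K (p i) * (lin2 K (p i) / y2 K *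
            ∏ x ∈ Finset.univ.erase i, lin2 K (p x) / y2 K) ∈ S0
          rw [e]
          exact mul_mem (mul_mem hxS hvS) (prod_mem fun _ _ => ly_mem S0 hvS _)
      · refine Algebra.adjoin_le ?_
        rintro g (rfl | rfl)
        · exact le_away _ _ _ (Cinf_y p)
        · exact le_away _ _ _ (Cinf_v p)
    rw [e]
    exact smooth_away S0 _ _ (hy_ne p) hS

end Pool.Agent.V5helper91.Kol
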