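import Pool.Agent.V5helper94.Kol.Loc
import Pool.Agent.V5helper91.Kol.Smooth

/-!
# Normality of the surface ring
-/

set_option linter.style.haveILetI false
set_option linter.unusedSectionVars false

namespace Pool.Agent.V5helper91.Kol

open Polynomial Pool.Agent.V5helper94.Kol

theorem primeX : Prime (C X : P2) := Polynomial.prime_C_iff.mpr Polynomial.prime_X

/-- the linear form `y + a x` in `ℂ[x, y]` -/
noncomputable def Lp (a : ℂ) : P2 := X + C (C a * X)

/-- image of `y` under the substitution `y = - a x + x ^ n y'` -/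
noncomputable def phiY (a : ℂ) (n : ℕ) : P2 := C (-(C a * X)) + C (X ^ n) * X

/-- the substitution `y = - a x + x ^ n y'` -/
noncomputable def phiP (a : ℂ) (n : ℕ) : P2 →+* P2 := Polynomial.compRingHom (phiY a n)

theorem phiP_apply (a : ℂ) (n : ℕ) (F : P2) : phiP a n F = F.comp (phiY a n) := rfl

theorem phiP_inj (a : ℂ) (n : ℕ) : Function.Injective (phiP a n) := by
  rw [injective_iff_map_eq_zero]
  intro F hF
  rw [phiP_apply, Polynomial.comp_eq_zero_iff] at hF
  rcases hF with h | ⟨_, h⟩
  · exact h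
  · exfalso
    have h1 := congrArg (fun q => Polynomial.coeff q 1) h
    simp only [phiY, coeff_add, coeff_C_succ, coeff_C_mul, coeff_X_one, mul_one, zero_add] at h1
    exact pow_ne_zero n Polynomial.X_ne_zero h1

theorem phiP_C (a : ℂ) (n : ℕ) (G : Polynomial ℂ) : phiP a n (C G) = C G := by
  rw [phiP_apply, C_comp]

/-- the unit part of the image of `y + b x` -/
noncomputable def wP (a b : ℂ) (n : ℕ) : P2 := C (C (b - a)) + C (X ^ (n - 1)) * X

theorem phiP_L (a b : ℂ) (n : ℕ) (hn : 1 ≤ n) : phiP a n (Lp b) = C X * wP a b n := by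
  obtain ⟨m, rfl⟩ : ∃ m, n = m + 1 := ⟨n - 1, by omega⟩
  rw [phiP_apply, Lp, add_comp, X_comp, C_comp, phiY, wP, Nat.add_sub_cancel]
  simp only [map_sub, map_neg, map_mul, map_pow]
  ring

theorem phiP_L_self (a : ℂ) (n : ℕ) : phiP a n (Lp a) = C X ^ n * X := by
  rw [phiP_apply, Lp, add_comp, X_comp, C_comp, phiY]
  simp only [map_neg, map_mul, map_pow]
  ring

theorem not_dvd_wP (a b : ℂ) (n : ℕ) (hab : a ≠ b) : ¬ (C X : P2) ∣ wP a b n := by
  rw [C_dvd_iff_dvd_coeff]
  intro h
  have h0 := h 0
  rw [wP, coeff_add, coeff_C_zero, coeff_C_mul, coeff_X_zero, mul_zero, add_zero,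
    X_dvd_iff, coeff_C_zero, sub_eq_zero] at h0
  exact hab h0.symm

theorem not_dvd_X : ¬ (C X : P2) ∣ X := by
  rw [C_dvd_iff_dvd_coeff]
  intro h
  have h0 := h 1
  rw [coeff_X_one, X_dvd_iff] at h0
  simp at h0

theorem eval_phiP (a : ℂ) (n : ℕ) (F : P2) : (phiP a n F).eval 0 = F.eval (-(C a * X)) := by
  rw [phiP_apply, eval_comp, phiY]
  simp

variable {K : Type} [Field K] [Algebra ℂ K] [Algebra P2 K] [IsScalarTower ℂ P2 K]
  [IsFractionRing P2 K]

/-- the substitution `y = - a x + x ^ n y'` on `ℂ(x, y)` -/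
noncomputable def phiK (K : Type) [Field K] [Algebra P2 K] [IsFractionRing P2 K] (a : ℂ) (n : ℕ) :
    K →+* K :=
  IsFractionRing.lift (A := P2) (K := K) (g := (algebraMap P2 K).comp (phiP a n))
    ((IsFractionRing.injective P2 K).comp (phiP_inj a n))

theorem phiK_amap (a : ℂ) (n : ℕ) (F : P2) :
    phiK K a n (algebraMap P2 K F) = algebraMap P2 K (phiP a n F) := by
  unfold phiK
  rw [IsFractionRing.lift_algebraMap]
  rfl

theorem lin_amap (a : ℂ) : lin2 K a = algebraMap P2 K (Lp a) := lin_eq a

theorem x_amap : x2 K = algebraMap P2 K (C X) := rfl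

theorem phiK_x (a : ℂ) (n : ℕ) : phiK K a n (x2 K) = x2 K := by
  rw [x_amap, phiK_amap, phiP_C]

variable {ι : Type} (p : ι → ℂ) {e : ι → ℕ} [Fintype ι] [DecidableEq ι]

theorem phiK_R (he : ∀ i, 3 ≤ e i) (hp : Function.Injective p) (i : ι) (g : K)
    (hg : g ∈ surfaceRing K p e) : phiK K (p i) (e i) g ∈ locAt K (C X : P2) primeX := by
  unfold surfaceRing at hg
  induction hg using Algebra.adjoin_induction with
  | mem g hg =>
    rcases hg with (rfl | rfl) | ⟨i', rfl⟩
    · rw [phiK_x]; exact amap_mem_locAt primeX _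
    · rw [y2, phiK_amap]; exact amap_mem_locAt primeX _
    · show phiK K (p i) (e i) (x2 K ^ e i' / lin2 K (p i')) ∈ _
      rw [map_div₀, map_pow, phiK_x, lin_amap, phiK_amap]
      have hx : x2 K ≠ 0 := x_ne
      by_cases h : i' = i
      · subst h
        rw [phiP_L_self, map_mul, map_pow, ← x_amap, div_mul_eq_div_mul_one_div,
          div_self (pow_ne_zero _ hx), one_mul, one_div]
        exact inv_mem_locAt not_dvd_X
      · rw [phiP_L _ _ _ (by have := he i; omega), map_mul, ← x_amap]
        obtain ⟨m, hm⟩ : ∃ m, e i' = m + 1 := ⟨e i' - 1, by have := he i'; omega⟩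
        rw [hm, pow_succ, mul_comm (x2 K ^ m), mul_div_mul_left _ _ hx, div_eq_mul_inv]
        refine mul_mem (pow_mem (amap_mem_locAt primeX _) _) (inv_mem_locAt ?_)
        exact not_dvd_wP _ _ _ fun h0 => h (hp h0.symm)
  | algebraMap c =>
    rw [← amap_C_C, phiK_amap]; exact amap_mem_locAt primeX _
  | add f g _ _ hf hg => rw [map_add]; exact add_mem hf hg
  | mul f g _ _ hf hg => rw [map_mul]; exact mul_mem hf hg

theorem hartogs (he : ∀ i, 3 ≤ e i) (hp : Function.Injective p) (N : ℕ) :
    ∀ (a : ι → ℕ), ∑ i, a i = N → ∀ (f : K) (F : P2),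
      f * ∏ i, lin2 K (p i) ^ (a i) = algebraMap P2 K F →
      (∀ i, phiK K (p i) (e i) f ∈ locAt K (C X : P2) primeX) → f ∈ surfaceRing K p e := by
  induction N with
  | zero =>
    intro a ha f F hF _
    have ha0 : ∀ i, a i = 0 := by
      intro i
      have := Finset.sum_eq_zero_iff.mp ha i (Finset.mem_univ i)
      exact this
    simp only [ha0, pow_zero, Finset.prod_const_one, mul_one] at hF
    rw [hF]
    exact amap_mem _ (x_mem_R p) (y_mem_R p) F
  | succ N ih =>
    intro a ha f F hF hf
    obtain ⟨i, hi⟩ : ∃ i, a i ≠ 0 := by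
      by_contra hcon
      push Not at hcon
      simp [hcon] at ha
    have hx : x2 K ≠ 0 := x_ne
    -- the exponent of `x`
    set s : Finset ι := Finset.univ.erase i with hs
    set E : ℕ := e i * a i + ∑ i' ∈ s, a i' with hE
    have hprod : ∀ g : ι → ℕ, ∏ i', lin2 K (p i') ^ (g i') =
        lin2 K (p i) ^ (g i) * ∏ i' ∈ s, lin2 K (p i') ^ (g i') := fun g =>
      (Finset.mul_prod_erase _ _ (Finset.mem_univ i)).symm
    -- the image of the denominator
    set u : P2 := X ^ (a i) * ∏ i' ∈ s, wP (p i) (p i') (e i) ^ (a i') with hu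
    have h1 : phiK K (p i) (e i) (∏ i', lin2 K (p i') ^ (a i')) =
        algebraMap P2 K ((C X) ^ E * u) := by
      rw [hprod, map_mul, map_pow, lin_amap, phiK_amap, phiP_L_self, map_prod, hu, hE, pow_add,
        pow_mul, map_mul, map_mul, map_mul, map_mul, map_prod]
      have h2 : ∏ i' ∈ s, phiK K (p i) (e i) (lin2 K (p i') ^ a i') =
          ∏ i' ∈ s, (algebraMap P2 K (C X) ^ a i' *
            algebraMap P2 K (wP (p i) (p i') (e i) ^ a i')) := by
        refine Finset.prod_congr rfl fun i' _ => ?_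
        rw [map_pow, lin_amap, phiK_amap, phiP_L _ _ _ (by have := he i; omega), map_mul,
          mul_pow, map_pow]
      rw [h2, Finset.prod_mul_distrib, Finset.prod_pow_eq_pow_sum]
      simp only [map_pow]
      ring
    have h2 : algebraMap P2 K (phiP (p i) (e i) F) =
        phiK K (p i) (e i) f * (algebraMap P2 K (C X) ^ E * algebraMap P2 K u) := by
      rw [← phiK_amap, ← hF, map_mul, h1, map_mul, map_pow]
    have h3 : (C X : P2) ^ E ∣ phiP (p i) (e i) F := by
      rw [← mul_mem_locAt_iff (K := K) (hh := primeX), h2]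
      have h4 : phiK K (p i) (e i) f * (algebraMap P2 K (C X) ^ E * algebraMap P2 K u) *
          (algebraMap P2 K (C X) ^ E)⁻¹ = phiK K (p i) (e i) f * algebraMap P2 K u := by
        rw [← x_amap]
        field_simp
      rw [h4]
      exact mul_mem (hf i) (amap_mem_locAt primeX _)
    obtain ⟨H, hH⟩ := h3
    have h5 : F.eval (-(C (p i) * X)) = X ^ E * H.eval 0 := by
      rw [← eval_phiP (p i) (e i) F, hH, eval_mul, eval_pow, eval_C]
    -- the correction
    set c : ℂ := ∏ i' ∈ s, ((p i' - p i) ^ (a i'))⁻¹ with hc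
    set G : Polynomial ℂ := C c * H.eval 0 with hG
    set F' : P2 := F - C (G * X ^ (e i * a i)) * ∏ i' ∈ s, Lp (p i') ^ (a i') with hF'
    have hroot : F'.eval (-(C (p i) * X)) = 0 := by
      have h6 : ∀ i', (Lp (p i')).eval (-(C (p i) * X)) = C (p i' - p i) * X := by
        intro i'
        rw [Lp, eval_add, eval_X, eval_C, map_sub]; ring
      rw [hF', eval_sub, h5, eval_mul, eval_C, eval_prod]
      have h7 : ∏ i' ∈ s, eval (-(C (p i) * X)) (Lp (p i') ^ a i') =
          C (∏ i' ∈ s, (p i' - p i) ^ (a i')) * X ^ (∑ i' ∈ s, a i') := by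
        rw [map_prod, ← Finset.prod_pow_eq_pow_sum, ← Finset.prod_mul_distrib]
        refine Finset.prod_congr rfl fun i' _ => ?_
        rw [eval_pow, h6, mul_pow, map_pow]
      rw [h7, hE, hG]
      have h8 : (C c : Polynomial ℂ) * C (∏ i' ∈ s, (p i' - p i) ^ (a i')) = 1 := by
        rw [← map_mul, hc, ← Finset.prod_mul_distrib]
        rw [Finset.prod_eq_one, map_one]
        intro i' hi'
        refine inv_mul_cancel₀ (pow_ne_zero _ ?_)
        rw [sub_ne_zero]
        exact fun h0 => Finset.ne_of_mem_erase hi' (hp h0)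
      rw [pow_add]
      linear_combination (-(X ^ (e i * a i) * X ^ (∑ i' ∈ s, a i') * eval 0 H)) * h8
    have hdvd : Lp (p i) ∣ F' := by
      have h6 : Lp (p i) = X - C (-(C (p i) * X)) := by
        rw [Lp, map_neg]; ring
      rw [h6, dvd_iff_isRoot]
      exact hroot
    obtain ⟨F'', hF''⟩ := hdvd
    have hl0 : lin2 K (p i) ≠ 0 := lin_ne _
    -- the corrected element
    set z : K := algebraMap P2 K (C G) * (x2 K ^ (e i) / lin2 K (p i)) ^ (a i) with hz
    have hzR : z ∈ surfaceRing K p e :=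
      mul_mem (amap_mem _ (x_mem_R p) (y_mem_R p) _) (pow_mem (z_mem_R p i) _)
    have h9 : (f - z) * ∏ i', lin2 K (p i') ^ (a i') = algebraMap P2 K F' := by
      clear_value G
      rw [sub_mul, hF, hF', map_sub, hprod, hz, map_mul, map_mul, map_mul, map_prod, map_pow,
        map_pow, ← x_amap]
      congr 1
      rw [div_pow, ← pow_mul]
      have h10 : ∏ i' ∈ s, lin2 K (p i') ^ a i' =
          ∏ i' ∈ s, algebraMap P2 K (Lp (p i') ^ a i') := by
        refine Finset.prod_congr rfl fun i' _ => ?_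
        rw [map_pow, lin_amap]
      rw [h10]
      field_simp
    have h10 : (f - z) * ∏ i', lin2 K (p i') ^ (Function.update a i (a i - 1) i') =
        algebraMap P2 K F'' := by
      have h11 : ∏ i' ∈ s, lin2 K (p i') ^ (Function.update a i (a i - 1) i') =
          ∏ i' ∈ s, lin2 K (p i') ^ (a i') := by
        refine Finset.prod_congr rfl fun i' hi' => ?_
        rw [Function.update_of_ne (Finset.ne_of_mem_erase hi')]
      rw [hprod, h11, Function.update_self]
      apply mul_left_cancel₀ hl0
      rw [lin_amap, ← map_mul, ← hF'', ← h9, hprod, lin_amap]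
      have h12 : algebraMap P2 K (Lp (p i)) ^ (a i) =
          algebraMap P2 K (Lp (p i)) * algebraMap P2 K (Lp (p i)) ^ (a i - 1) := by
        rw [← pow_succ']; congr 1; omega
      rw [h12]; ring
    have h11 : ∑ i', Function.update a i (a i - 1) i' = N := by
      have h12 := Finset.sum_update_of_mem (Finset.mem_univ i) a (a i - 1)
      have h13 := Finset.sum_eq_add_sum_sdiff_singleton_of_mem (Finset.mem_univ i) a
      omega
    have h12 : f - z ∈ surfaceRing K p e := by
      refine ih _ h11 _ F'' h10 fun i' => ?_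
      rw [map_sub]
      exact sub_mem (hf i') (phiK_R p he hp i' z hzR)
    have := add_mem h12 hzR
    rwa [sub_add_cancel] at this

theorem isFractionRing_sub (S : Subalgebra ℂ K) (hx : x2 K ∈ S) (hy : y2 K ∈ S) :
    IsFractionRing S K := by
  haveI : FaithfulSMul S K :=
    (faithfulSMul_iff_algebraMap_injective S K).mpr Subtype.val_injective
  refine IsFractionRing.of_field S K fun f => ?_
  obtain ⟨F, G, hG, e⟩ := exists_quot f
  have := amap_ne (K := K) hG
  refine ⟨⟨algebraMap P2 K F, amap_mem S hx hy F⟩, ⟨algebraMap P2 K G, amap_mem S hx hy G⟩, ?_⟩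
  show f = algebraMap P2 K F / algebraMap P2 K G
  rw [← e]
  field_simp

theorem normal (he : ∀ i, 3 ≤ e i) (hp : Function.Injective p) :
    IsIntegrallyClosed (surfaceRing K p e) := by
  haveI := isFractionRing_sub (surfaceRing K p e) (x_mem_R p) (y_mem_R p)
  rw [isIntegrallyClosed_iff K]
  intro f hf
  have hPi : (∏ i, Lp (p i) : P2) ≠ 0 := Finset.prod_ne_zero_iff.mpr fun i _ => linP_ne _
  have h1 : f ∈ awayAt K (∏ i, Lp (p i) : P2) hPi := by
    obtain ⟨l, hl⟩ := mem_of_isIntegral_map (A := surfaceRing K p e)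
      (L := awayAt K (∏ i, Lp (p i) : P2) hPi) (K' := K) (RingHom.id K) (fun a => by
        suffices h : (a : K) ∈ awayAt K (∏ i, Lp (p i) : P2) hPi from ⟨⟨a, h⟩, rfl⟩
        obtain ⟨a, ha⟩ := a
        show a ∈ _
        unfold surfaceRing at ha
        induction ha using Algebra.adjoin_induction with
        | mem g hg =>
          rcases hg with (rfl | rfl) | ⟨i, rfl⟩
          · exact (awayAt K (∏ i, Lp (p i) : P2) hPi).algebraMap_mem _
          · exact (awayAt K (∏ i, Lp (p i) : P2) hPi).algebraMap_mem _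
          · rw [mem_awayAt]
            refine ⟨C X ^ (e i) * ∏ i' ∈ Finset.univ.erase i, Lp (p i'), 1, ?_⟩
            rw [pow_one, ← Finset.mul_prod_erase _ _ (Finset.mem_univ i), map_mul, map_mul,
              map_pow, ← x_amap, ← lin_amap]
            have hl0 : lin2 K (p i) ≠ 0 := lin_ne _
            show x2 K ^ e i / lin2 K (p i) * _ = _
            field_simp
        | algebraMap c =>
          rw [← amap_C_C]
          exact (awayAt K (∏ i, Lp (p i) : P2) hPi).algebraMap_mem _
        | add f g _ _ hf hg => exact add_mem hf hg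
        | mul f g _ _ hf hg => exact mul_mem hf hg) hf
    have : (l : K) = f := hl
    rw [← this]
    exact l.2
  rw [mem_awayAt] at h1
  obtain ⟨F, n, hF⟩ := h1
  have h2 : f ∈ surfaceRing K p e := by
    refine hartogs p he hp _ (fun _ => n) rfl f F ?_ ?_
    · rw [← hF, map_prod, ← Finset.prod_pow]
      congr 1
      exact Finset.prod_congr rfl fun i _ => by rw [lin_amap]
    · intro i
      obtain ⟨l, hl⟩ := mem_of_isIntegral_map (A := surfaceRing K p e)
        (L := locAt K (C X : P2) primeX) (K' := K) (phiK K (p i) (e i)) (fun a =>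
          ⟨⟨_, phiK_R (K := K) p he hp i (a : K) a.2⟩, rfl⟩) hf
      have : (l : K) = phiK K (p i) (e i) f := hl
      rw [← this]
      exact l.2
  exact ⟨⟨f, h2⟩, rfl⟩

end Pool.Agent.V5helper91.Kol
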