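import Pool.Agent.V5helper91.Kol.Cover

/-!
# Splittings for the vanishing of `H¹`
-/

set_option linter.style.haveILetI false
set_option linter.unusedSectionVars false

namespace Pool.Agent.V5helper91.Kol

open Polynomial Pool.Agent.V5helper94.Kol

section general

variable {K : Type} [Field K] [Algebra ℂ K]

theorem decomp (S Q : Subalgebra ℂ K) (hQ : Q ≤ S) (a : K) (ha : a ∈ S) (gens : Set K)
    (hS : S = Algebra.adjoin ℂ gens)
    (h : ∀ g ∈ gens, ∃ q ∈ Q, ∃ f' ∈ S, g = q + a * f') :
    ∀ f ∈ S, ∃ q ∈ Q, ∃ f' ∈ S, f = q + a * f' := by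
  intro f hf
  rw [hS] at hf
  induction hf using Algebra.adjoin_induction with
  | mem g hg => exact h g hg
  | algebraMap c => exact ⟨algebraMap ℂ K c, Q.algebraMap_mem c, 0, S.zero_mem, by ring⟩
  | add f g _ _ hf hg =>
    obtain ⟨q1, hq1, f1, hf1, e1⟩ := hf
    obtain ⟨q2, hq2, f2, hf2, e2⟩ := hg
    exact ⟨q1 + q2, add_mem hq1 hq2, f1 + f2, add_mem hf1 hf2, by rw [e1, e2]; ring⟩
  | mul f g _ _ hf hg =>
    obtain ⟨q1, hq1, f1, hf1, e1⟩ := hf
    obtain ⟨q2, hq2, f2, hf2, e2⟩ := hg
    refine ⟨q1 * q2, mul_mem hq1 hq2, q1 * f2 + q2 * f1 + a * f1 * f2, ?_, by rw [e1, e2]; ring⟩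
    exact add_mem (add_mem (mul_mem (hQ hq1) hf2) (mul_mem (hQ hq2) hf1))
      (mul_mem (mul_mem ha hf1) hf2)

theorem split_general (S G : Subalgebra ℂ K) (a q : K) (ha0 : a ≠ 0)
    (h1 : ∀ f ∈ S, ∃ g ∈ Algebra.adjoin ℂ {q}, ∃ f' ∈ S, f = g + a * f')
    (h2 : ∀ c b : ℕ, q ^ b / a ^ c ∈ G) (n : ℕ) :
    ∀ f ∈ S, ∃ f1 ∈ S, ∃ f2 ∈ G, f / a ^ n = f1 + f2 := by
  induction n with
  | zero => intro f hf; exact ⟨f, hf, 0, G.zero_mem, by simp⟩
  | succ n ih =>
    intro f hf
    obtain ⟨g, hg, f', hf', e⟩ := h1 f hf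
    obtain ⟨f1, hf1, f2, hf2, e'⟩ := ih f' hf'
    have h3 : g / a ^ (n + 1) ∈ G := by
      have h4 : ∀ P : Polynomial ℂ, Polynomial.aeval q P / a ^ (n + 1) ∈ G := by
        intro P
        induction P using Polynomial.induction_on' with
        | add P Q hP hQ => rw [map_add, add_div]; exact add_mem hP hQ
        | monomial m c =>
          rw [Polynomial.aeval_monomial, mul_div_assoc]
          exact mul_mem (G.algebraMap_mem c) (h2 _ _)
      rw [Algebra.adjoin_singleton_eq_range_aeval] at hg
      obtain ⟨P, rfl⟩ := hg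
      exact h4 P
    refine ⟨f1, hf1, g / a ^ (n + 1) + f2, add_mem h3 hf2, ?_⟩
    rw [e, add_div, pow_succ a n, mul_comm a f', mul_div_mul_right _ _ ha0, e', ← pow_succ]
    ring

end general

variable {K : Type} [Field K] [Algebra ℂ K] [Algebra P2 K] [IsScalarTower ℂ P2 K]
  [IsFractionRing P2 K]

variable {ι : Type} (p : ι → ℂ)

theorem decomp_C0 (hp0 : ∀ i, p i ≠ 0) : ∀ f ∈ C0 p K, ∃ g ∈ Algebra.adjoin ℂ {x2 K},
    ∃ f' ∈ C0 p K, f = g + y2 K / x2 K * f' := by
  refine decomp _ _ ?_ _ (C0_u p) _ rfl ?_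
  · refine Algebra.adjoin_le ?_
    rintro _ rfl
    exact C0_x p
  · have hx : x2 K ≠ 0 := x_ne
    rintro g ((rfl | rfl) | ⟨i, rfl⟩)
    · exact ⟨x2 K, Algebra.subset_adjoin rfl, 0, zero_mem _, by ring⟩
    · exact ⟨0, zero_mem _, 1, one_mem _, by ring⟩
    · have hl : lin2 K (p i) ≠ 0 := lin_ne _
      have hp : algebraMap ℂ K (p i) ≠ 0 := by
        rw [Ne, map_eq_zero]; exact hp0 i
      refine ⟨algebraMap ℂ K (p i)⁻¹ * x2 K, mul_mem (Subalgebra.algebraMap_mem _ _)
        (Algebra.subset_adjoin rfl), -(algebraMap ℂ K (p i)⁻¹ * (x2 K ^ 2 / lin2 K (p i))),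
        neg_mem (mul_mem (Subalgebra.algebraMap_mem _ _) (C0_w p i)), ?_⟩
      rw [map_inv₀]
      field_simp
      rw [lin2]; ring

theorem decomp_Cbr (hp : Function.Injective p) (i : ι) (j : ℕ) : ∀ f ∈ Cbr p K i j,
    ∃ g ∈ Algebra.adjoin ℂ {x2 K ^ (j + 3) / lin2 K (p i)},
    ∃ f' ∈ Cbr p K i j, f = g + lin2 K (p i) / x2 K ^ (j + 2) * f' := by
  refine decomp _ _ ?_ _ (Cbr_a p i j) _ rfl ?_
  · refine Algebra.adjoin_le ?_
    rintro _ rfl
    exact Cbr_q p i j
  · have hx : x2 K ≠ 0 := x_ne
    rintro g ((rfl | rfl) | ⟨⟨i', hi'⟩, rfl⟩)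
    · exact ⟨0, zero_mem _, 1, one_mem _, by ring⟩
    · exact ⟨_, Algebra.subset_adjoin rfl, 0, zero_mem _, by ring⟩
    · have hl : lin2 K (p i') ≠ 0 := lin_ne _
      have h2 : (algebraMap ℂ K (p i' - p i)) ≠ 0 := by
        intro h0
        rw [map_eq_zero, sub_eq_zero] at h0
        exact hi' (hp h0)
      refine ⟨algebraMap ℂ K (p i' - p i)⁻¹, Subalgebra.algebraMap_mem _ _,
        -(algebraMap ℂ K (p i' - p i)⁻¹ * (x2 K ^ (j + 1) * (x2 K / lin2 K (p i')))),
        neg_mem (mul_mem (Subalgebra.algebraMap_mem _ _)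
          (mul_mem (pow_mem (Cbr_x p i j) _) (Cbr_m p i j i' hi'))), ?_⟩
      rw [map_inv₀]
      have h5 := lin_sub (K := K) (p i') (p i)
      have h6 : lin2 K (p i') = lin2 K (p i) + algebraMap ℂ K (p i' - p i) * x2 K := by
        rw [← h5]; ring
      have h7 : lin2 K (p i) / x2 K ^ (j + 2) *
        -((algebraMap ℂ K (p i' - p i))⁻¹ * (x2 K ^ (j + 1) * (x2 K / lin2 K (p i')))) =
        - (algebraMap ℂ K (p i' - p i))⁻¹ * (lin2 K (p i) / lin2 K (p i')) := by
        field_simp
        rw [pow_succ, pow_succ, pow_succ]; ring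
      rw [h7]
      show x2 K / lin2 K (p i') = _
      field_simp
      rw [h6]; ring

variable {e : ι → ℕ} [Fintype ι] [DecidableEq ι]

/-- Bound for the second components -/
def MM (e : ι → ℕ) : ℕ := ∑ i, e i + 1

theorem lt_MM (t : T e) : (t.2 : ℕ) < MM e := by
  have h1 := t.2.2
  have h2 : e t.1 ≤ ∑ i, e i := Finset.single_le_sum (f := e) (fun _ _ => Nat.zero_le _)
    (Finset.mem_univ t.1)
  unfold MM
  omega

/-- The order of the charts -/
noncomputable def rr : Idx e → ℕ
  | none => 0
  | some none => 1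
  | some (some t) => 2 + ((Fintype.equivFin ι t.1 : ℕ) * MM e + t.2)

theorem rr_inj : Function.Injective (rr : Idx e → ℕ) := by
  intro a b h
  match a, b with
  | none, none => rfl
  | none, some none => simp [rr] at h
  | none, some (some t) => simp only [rr] at h; omega
  | some none, none => simp [rr] at h
  | some none, some none => rfl
  | some none, some (some t) => simp only [rr] at h; omega
  | some (some t), none => simp only [rr] at h; omega
  | some (some t), some none => simp only [rr] at h; omega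
  | some (some t), some (some t') =>
    simp only [rr] at h
    have h1 := lt_MM t
    have h2 := lt_MM t'
    have h3 : (Fintype.equivFin ι t.1 : ℕ) * MM e + t.2 =
      (Fintype.equivFin ι t'.1 : ℕ) * MM e + t'.2 := by omega
    have h4 : (Fintype.equivFin ι t.1 : ℕ) = (Fintype.equivFin ι t'.1 : ℕ) := by
      have h5 := congrArg (fun n => n / MM e) h3
      rwa [Nat.mul_comm, Nat.mul_comm (Fintype.equivFin ι t'.1 : ℕ),
        Nat.mul_add_div (by omega), Nat.mul_add_div (by omega), Nat.div_eq_of_lt h1,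
        Nat.div_eq_of_lt h2, add_zero, add_zero] at h5
    have h6 : t.1 = t'.1 := (Fintype.equivFin ι).injective (Fin.ext h4)
    have h7 : (t.2 : ℕ) = t'.2 := by rw [h4] at h3; omega
    obtain ⟨i, a⟩ := t
    obtain ⟨i', a'⟩ := t'
    simp only at h6 h7
    subst h6
    rw [Fin.ext h7]

theorem FF_mem (i : Idx e) : FF p K i ∈ J p e K := by
  match i with
  | none => exact gen_mem p _ _
  | some none => exact gen_mem p _ _
  | some (some t) => exact gen_mem p _ _

theorem FF_ne (i : Idx e) : FF p K i ≠ 0 := by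
  match i with
  | none => exact gen_ne p _ _
  | some none => exact gen_ne p _ _
  | some (some t) => exact gen_ne p _ _

/-- The chart algebras -/
noncomputable def CC (K : Type) [Field K] [Algebra ℂ K] [Algebra P2 K] : Idx e → Subalgebra ℂ K
  | none => C0 p K
  | some none => Cinf p K
  | some (some t) => Cbr p K t.1 t.2

theorem chart_eq (he : ∀ i, 3 ≤ e i) (hp : Function.Injective p) (i : Idx e) :
    chart (surfaceRing K p e) (J p e K) (FF p K i) (FF_mem p i) = CC p K i := by
  match i with
  | none => exact chart_zero p he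
  | some none => exact chart_inf p he
  | some (some t) => exact chart_br p he hp t

/-- an overlap is a localisation of the chart -/
theorem overlap {R : Subalgebra ℂ K} {J : Submodule R K} {F G a : K} (hF : F ∈ J)
    (h : G = a * F) {f : K} {n : ℕ} (hf : f * (G * F) ^ n ∈ J ^ (2 * n)) :
    f * a ^ n ∈ chart R J F hF := by
  refine ⟨2 * n, ?_⟩
  rwa [show f * a ^ n * F ^ (2 * n) = f * (G * F) ^ n by rw [h, mul_pow, mul_pow, pow_mul]; ring]

theorem split (he : ∀ i, 3 ≤ e i) (hp : Function.Injective p) (hp0 : ∀ i, p i ≠ 0) :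
    ∀ m : Idx e, (∃ b : Idx e, rr b < rr m) → ∃ prev : Idx e, rr prev < rr m ∧
    ∀ f : K, (∃ n : ℕ, f * (FF p K prev * FF p K m) ^ n ∈ (J p e K) ^ (2 * n)) →
      ∃ f1 ∈ chart (surfaceRing K p e) (J p e K) (FF p K m) (FF_mem p m), ∃ f2 : K,
        (∀ b : Idx e, rr b < rr m →
          f2 ∈ chart (surfaceRing K p e) (J p e K) (FF p K b) (FF_mem p b)) ∧ f = f1 + f2 := by
  intro m hm
  have hx : x2 K ≠ 0 := x_ne
  have hy : y2 K ≠ 0 := y_ne
  match m with
  | none => obtain ⟨b, hb⟩ := hm; simp [rr] at hb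
  | some none =>
    refine ⟨none, by simp [rr], ?_⟩
    rintro f ⟨n, hn⟩
    rw [mul_comm (FF p K none)] at hn
    have h1 := overlap (a := y2 K / x2 K) (FF_mem p none) (gen_inf p _).symm hn
    rw [chart_eq p he hp] at h1
    obtain ⟨f1, hf1, f2, hf2, e1⟩ := split_general (C0 p K) (Cinf p K) (y2 K / x2 K) (x2 K)
      (div_ne_zero hy hx) (decomp_C0 p hp0) (fun c b => by
        rw [div_eq_mul_inv, ← inv_pow, inv_div]
        exact mul_mem (pow_mem (Cinf_x p) _) (pow_mem (Cinf_v p) _)) n _ h1
    rw [mul_div_assoc, div_self (pow_ne_zero _ (div_ne_zero hy hx)), mul_one] at e1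
    refine ⟨f2, by rw [chart_eq p he hp]; exact hf2, f1, ?_, by rw [e1]; ring⟩
    intro b hb
    match b with
    | none => rw [chart_eq p he hp]; exact hf1
    | some none => simp [rr] at hb
    | some (some t) => simp only [rr] at hb; omega
  | some (some t) =>
    -- the previous chart
    obtain ⟨prev, hprev, hFF⟩ : ∃ prev : Idx e, rr prev < rr (some (some t) : Idx e) ∧
        FF p K prev = lin2 K (p t.1) / x2 K ^ ((t.2 : ℕ) + 2) * FF p K (some (some t)) := by
      have h1 := gen_update_false (K := K) p false (sbr t) t (by simp [sbr])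
      by_cases h0 : (t.2 : ℕ) = 0
      · refine ⟨none, by simp only [rr]; omega, ?_⟩
        show gen p K false (fun _ => false) = _ * gen p K false (sbr t)
        rw [h1]
        congr 1
        funext t'
        by_cases h : t' = t
        · subst h; simp
        · rw [Function.update_of_ne h]
          symm
          simp only [sbr, Bool.and_eq_false_iff, decide_eq_false_iff_not]
          by_contra hcon
          push Not at hcon
          apply h
          obtain ⟨i, a⟩ := t
          obtain ⟨i', a'⟩ := t'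
          simp only at hcon h0
          obtain ⟨rfl, h3⟩ := hcon
          congr 1
          exact Fin.ext (by omega)
      · refine ⟨some (some ⟨t.1, ⟨(t.2 : ℕ) - 1, by have := t.2.2; omega⟩⟩), ?_, ?_⟩
        · simp only [rr]; omega
        · show gen p K false (sbr _) = _ * gen p K false (sbr t)
          rw [h1]
          congr 1
          funext t'
          by_cases h : t' = t
          · subst h
            simp [sbr]; omega
          · rw [Function.update_of_ne h]
            simp only [sbr]
            by_cases h5 : t'.1 = t.1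
            · have h6 : (t'.2 : ℕ) ≠ t.2 := by
                intro h6
                apply h
                obtain ⟨i, a⟩ := t
                obtain ⟨i', a'⟩ := t'
                simp only at h5 h6
                subst h5
                congr 1
                exact Fin.ext h6
              simp only [h5, decide_true, Bool.true_and, decide_eq_decide]
              omega
            · simp [h5]
    refine ⟨prev, hprev, ?_⟩
    rintro f ⟨n, hn⟩
    have h1 := overlap (FF_mem p (some (some t))) hFF hn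
    rw [chart_eq p he hp] at h1
    have hl : lin2 K (p t.1) ≠ 0 := lin_ne _
    have ha0 : lin2 K (p t.1) / x2 K ^ ((t.2 : ℕ) + 2) ≠ 0 :=
      div_ne_zero hl (pow_ne_zero _ hx)
    obtain ⟨f1, hf1, f2, hf2, e1⟩ := split_general (Cbr p K t.1 t.2)
      (⨅ b : {b : Idx e // rr b < rr (some (some t) : Idx e)}, CC p K b.1)
      (lin2 K (p t.1) / x2 K ^ ((t.2 : ℕ) + 2)) (x2 K ^ ((t.2 : ℕ) + 3) / lin2 K (p t.1))
      ha0 (decomp_Cbr p hp t.1 t.2) (fun c b => by
        rw [Algebra.mem_iInf]
        rintro ⟨b', hb'⟩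
        have hx' : x2 K ∈ CC p K b' := by
          match b' with
          | none => exact C0_x p
          | some none => exact Cinf_x p
          | some (some t') => exact Cbr_x p _ _
        have hw : x2 K ^ ((t.2 : ℕ) + 2) / lin2 K (p t.1) ∈ CC p K b' := by
          match b' with
          | none => exact C0_w' p _ _
          | some none => exact Cinf_w' p _ _
          | some (some t') =>
            by_cases h : t.1 = t'.1
            · have hl : lin2 K (p t.1) = lin2 K (p t'.1) := by rw [h]
              rw [hl]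
              refine Cbr_q' p _ _ _ ?_
              simp only [rr, h] at hb'
              omega
            · exact Cbr_m' p _ _ _ h _ (by omega)
        have e2 : (x2 K ^ ((t.2 : ℕ) + 3) / lin2 K (p t.1)) ^ b /
            (lin2 K (p t.1) / x2 K ^ ((t.2 : ℕ) + 2)) ^ c =
            x2 K ^ b * (x2 K ^ ((t.2 : ℕ) + 2) / lin2 K (p t.1)) ^ (b + c) := by
          rw [pow_succ (x2 K) ((t.2 : ℕ) + 2), div_eq_mul_inv _ ((_ : K) ^ c), ← inv_pow, inv_div,
            mul_div_right_comm, mul_pow, pow_add]
          ring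
        rw [e2]
        exact mul_mem (pow_mem hx' _) (pow_mem hw _)) n _ h1
    rw [mul_div_assoc, div_self (pow_ne_zero _ ha0), mul_one] at e1
    refine ⟨f1, by rw [chart_eq p he hp]; exact hf1, f2, ?_, e1⟩
    intro b hb
    rw [chart_eq p he hp]
    rw [Algebra.mem_iInf] at hf2
    exact hf2 ⟨b, hb⟩

end Pool.Agent.V5helper91.Kol
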