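import Pool.Agent.V5helper91.Kol.Normal

/-!
# The surface ring is a rational surface
-/

set_option linter.style.haveILetI false
set_option linter.unusedSectionVars false

namespace Pool.Agent.V5helper91.Kol

open Polynomial Pool.Agent.V5helper94.Kol

variable {K : Type} [Field K] [Algebra ℂ K] [Algebra P2 K] [IsScalarTower ℂ P2 K]
  [IsFractionRing P2 K]

variable {ι : Type}

theorem surfaceRing_finiteType [Finite ι] (p : ι → ℂ) (e : ι → ℕ) :
    Algebra.FiniteType ℂ (surfaceRing K p e) := by
  have hfin : (({x2 K, y2 K} ∪ Set.range fun i => x2 K ^ (e i) / lin2 K (p i) : Set K)).Finite :=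
    (Set.toFinite _).union (Set.finite_range _)
  rw [← Subalgebra.fg_iff_finiteType]
  refine ⟨hfin.toFinset, ?_⟩
  rw [Set.Finite.coe_toFinset]
  rfl

theorem smooth_CC [Fintype ι] [DecidableEq ι] [Nonempty ι] (p : ι → ℂ) (hp : Function.Injective p)
    {e : ι → ℕ} (i : Idx e) : Algebra.Smooth ℂ (CC p K i) := by
  match i with
  | none => exact smooth_C0 p hp
  | some none => exact smooth_Cinf p hp
  | some (some t) => exact smooth_Cbr p t.1 t.2

theorem blowUpHyp [Fintype ι] [DecidableEq ι] [Nonempty ι] (p : ι → ℂ) (hp : Function.Injective p)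
    (hp0 : ∀ i, p i ≠ 0) (e : ι → ℕ) (he : ∀ i, 3 ≤ e i) :
    BlowUpHyp (surfaceRing K p e) (J p e K) (FF p K : Idx e → K) rr where
  fg := J_fg p
  le := J_le p
  inj := rr_inj
  mem := FF_mem p
  ne := FF_ne p
  cover := fun P _ hP2 hP3 hP4 => cover p hp P hP2 hP3 hP4
  smooth := fun i => by
    rw [chart_eq p he hp]
    exact smooth_CC p hp i
  split := split p he hp hp0

/-- Given the resolution by a blow-up (`BlowUpResolution`), the surface ring is a rational
surface. -/
theorem isRationalSurface_of_blowUp (hB : BlowUpResolution) (K : Type) [Field K] [Algebra ℂ K]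
    [Algebra P2 K] [IsScalarTower ℂ P2 K] [IsFractionRing P2 K] {ι : Type} [Finite ι] [Nonempty ι]
    (p : ι → ℂ) (hp : Function.Injective p) (hp0 : ∀ i, p i ≠ 0) (e : ι → ℕ)
    (he : ∀ i, 3 ≤ e i) : IsRationalSurface (surfaceRing K p e) := by
  classical
  haveI := Fintype.ofFinite ι
  haveI := surfaceRing_finiteType (K := K) p e
  exact
    { isDomain := inferInstance
      finiteType := inferInstance
      normal := normal p he hp
      trdeg := trdeg_sub _ (x_mem_R p) (y_mem_R p)
      resolution := hB K (surfaceRing K p e) (J p e K) (FF p K : Idx e → K) rr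
        (blowUpHyp p hp hp0 e he) }

end Pool.Agent.V5helper91.Kol
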